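import Mathlib
import Pool.Agent.TH314.ET.Mont

set_option autoImplicit false

/-!
# The large sieve for sets which miss half of the residue classes modulo many small primes

Let `P` be a set of primes `≤ y` and let `F` be a set of `M` consecutive integers' members, which meets at
most half of the residue classes modulo every `p` in `P`. If `y ^ (2 k) ≤ N` then
`|F| * (|P| choose k) ≤ 12 N`.
-/

namespace Pool.Agent.U307.SK

open Finset
open Pool.Agent.Helper112 Pool.Agent.TH314.ET

theorem large1 (N k y : ℕ) (P : Finset ℕ) (hP : ∀ p ∈ P, p.Prime ∧ p ≤ y) (F : Finset ℕ)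
    (hF : F ⊆ Icc 1 N) (hk : y ^ (2 * k) ≤ N)
    (hocc : ∀ p ∈ P, 2 * (F.image (· % p)).card ≤ p) :
    (F.card : ℝ) * (P.card.choose k) ≤ 12 * N := by
  classical
  rcases F.eq_empty_or_nonempty with h0 | h0
  · subst h0
    simp only [card_empty, Nat.cast_zero, zero_mul]
    positivity
  have hFc : (0 : ℝ) < F.card := by exact_mod_cast Finset.card_pos.2 h0
  set α : ℕ → ℂ := fun n => if n ∈ F then 1 else 0 with hα
  have hαs : Summable fun n => ‖α n‖ := by
    apply summable_of_ne_finset_zero (s := F)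
    intro n hn
    simp [hα, hn]
  have hSf : ∀ θ : ℝ, Sf α θ = ∑ n ∈ Icc 1 N, α n * ee (n * θ) := by
    intro θ
    unfold Sf
    rw [tsum_eq_sum (s := Icc 1 N)]
    intro n hn
    have : n ∉ F := fun h => hn (hF h)
    simp [hα, this]
  have hSf0 : Sf α 0 = (F.card : ℂ) := by
    rw [hSf]
    simp only [mul_zero, ls_ee_zero, mul_one, hα]
    rw [Finset.sum_ite_mem, Finset.inter_eq_right.2 hF]
    simp
  -- the moduli
  set Q : ℕ := y ^ k with hQ
  set f : Finset ℕ → ℕ := fun s => ∏ p ∈ s, p with hf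
  have hsub : ∀ s ∈ P.powersetCard k, (f s).primeFactors = s ∧ Squarefree (f s) ∧ 1 ≤ f s ∧
      f s ≤ Q := by
    intro s hs
    rw [mem_powersetCard] at hs
    have hpr : ∀ p ∈ s, p.Prime := fun p hp => (hP p (hs.1 hp)).1
    refine ⟨?_, ?_, ?_, ?_⟩
    · exact Nat.primeFactors_prod hpr
    · rw [hf]
      exact Finset.squarefree_prod_of_pairwise_isCoprime
        (fun p hp q hq hpq => Nat.coprime_iff_isRelPrime.1
          ((Nat.coprime_primes (hpr p hp) (hpr q hq)).2 hpq))
        (fun p hp => (hpr p hp).squarefree)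
    · exact Nat.one_le_iff_ne_zero.2 (Finset.prod_ne_zero_iff.2 fun p hp => (hpr p hp).ne_zero)
    · rw [hf, hQ, ← hs.2]
      exact Finset.prod_le_pow_card _ _ _ fun p hp => (hP p (hs.1 hp)).2
  have hinj : Set.InjOn f (P.powersetCard k : Finset (Finset ℕ)) := by
    intro s hs t ht hst
    have h1 := (hsub s hs).1
    have h2 := (hsub t ht).1
    rw [← h1, ← h2, hst]
  have hls := additive_large_sieve N Q α
  have hsq : ∑ n ∈ Icc 1 N, ‖α n‖ ^ 2 = F.card := by
    have h1 : ∀ n ∈ Icc 1 N, ‖α n‖ ^ 2 = if n ∈ F then 1 else 0 := by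
      intro n _
      simp only [hα]
      split_ifs <;> simp
    rw [Finset.sum_congr rfl h1, Finset.sum_ite_mem, Finset.inter_eq_right.2 hF]
    simp
  rw [hsq] at hls
  have hlow : (F.card : ℝ) ^ 2 * (P.card.choose k) ≤
      ∑ q ∈ Icc 1 Q, ∑ a ∈ (range q).filter (fun a => a.Coprime q),
        ‖∑ n ∈ Icc 1 N, α n * ee (n * a / q)‖ ^ 2 := by
    have h1 : ∑ q ∈ (P.powersetCard k).image f, ∑ a ∈ (range q).filter (fun a => a.Coprime q),
        ‖∑ n ∈ Icc 1 N, α n * ee (n * a / q)‖ ^ 2 ≤
        ∑ q ∈ Icc 1 Q, ∑ a ∈ (range q).filter (fun a => a.Coprime q),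
        ‖∑ n ∈ Icc 1 N, α n * ee (n * a / q)‖ ^ 2 := by
      apply Finset.sum_le_sum_of_subset_of_nonneg
      · intro q hq
        rw [mem_image] at hq
        obtain ⟨s, hs, rfl⟩ := hq
        exact mem_Icc.2 ⟨(hsub s hs).2.2.1, (hsub s hs).2.2.2⟩
      · intro _ _ _
        exact Finset.sum_nonneg fun _ _ => by positivity
    refine le_trans ?_ h1
    rw [Finset.sum_image hinj]
    have h2 : ∀ s ∈ P.powersetCard k, (F.card : ℝ) ^ 2 ≤
        ∑ a ∈ (range (f s)).filter (fun a => a.Coprime (f s)),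
        ‖∑ n ∈ Icc 1 N, α n * ee (n * a / (f s : ℕ))‖ ^ 2 := by
      intro s hs
      have h3 := mont_sqf hαs (fun p => F.image (· % p)) (f s) (hsub s hs).2.1 (by
        intro p hp
        rw [(hsub s hs).1] at hp
        have hpP := (mem_powersetCard.1 hs).1 hp
        refine ⟨?_, ?_, ?_⟩
        · intro n hn
          have : n ∈ F := by
            by_contra h
            exact hn (by simp [hα, h])
          exact mem_image_of_mem _ this
        · exact Finset.card_pos.2 (h0.image _)
        · have := hocc p hpP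
          omega) 0
      have h4 : (1 : ℝ) ≤ ∏ p ∈ (f s).primeFactors,
          ((p : ℝ) - (F.image (· % p)).card) / (F.image (· % p)).card := by
        rw [(hsub s hs).1]
        have h5 : ∀ p ∈ s, (1 : ℝ) ≤ ((p : ℝ) - (F.image (· % p)).card) / (F.image (· % p)).card := by
          intro p hp
          have hpP := (mem_powersetCard.1 hs).1 hp
          have h6 : (2 : ℝ) * (F.image (· % p)).card ≤ p := by exact_mod_cast hocc p hpP
          have h7 : (0 : ℝ) < (F.image (· % p)).card := by
            exact_mod_cast Finset.card_pos.2 (h0.image _)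
          rw [one_le_div h7]
          linarith
        calc (1 : ℝ) = ∏ _p ∈ s, (1 : ℝ) := by simp
          _ ≤ _ := Finset.prod_le_prod (fun _ _ => zero_le_one) h5
      rw [hSf0, Complex.norm_natCast] at h3
      have h8 : (F.card : ℝ) ^ 2 ≤ (∏ p ∈ (f s).primeFactors,
          ((p : ℝ) - (F.image (· % p)).card) / (F.image (· % p)).card) * (F.card : ℝ) ^ 2 :=
        le_mul_of_one_le_left (by positivity) h4
      refine (h8.trans h3).trans (le_of_eq ?_)
      refine Finset.sum_congr rfl fun a _ => ?_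
      rw [add_zero, hSf]
      congr 2
      refine Finset.sum_congr rfl fun n _ => ?_
      rw [mul_div_assoc]
    have h3 := Finset.card_nsmul_le_sum _ _ _ h2
    rw [card_powersetCard, nsmul_eq_mul] at h3
    linarith
  have hQN : (Q : ℝ) ^ 2 ≤ N := by
    have : Q ^ 2 ≤ N := by
      rw [hQ, ← pow_mul, mul_comm]
      exact hk
    exact_mod_cast this
  have h1 : (F.card : ℝ) ^ 2 * (P.card.choose k) ≤ 12 * N * F.card := by
    refine hlow.trans (hls.trans ?_)
    have : (6 : ℝ) * (N + (Q : ℝ) ^ 2) ≤ 12 * N := by linarith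
    exact mul_le_mul_of_nonneg_right this hFc.le
  have h2 : (F.card : ℝ) * ((F.card : ℝ) * (P.card.choose k)) ≤ (F.card : ℝ) * (12 * N) := by
    nlinarith [h1]
  exact le_of_mul_le_mul_left h2 hFc

/-- the same for sets of integers in an interval of `2 H + 1` integers -/
theorem large2 (H k y : ℕ) (P : Finset ℕ) (hP : ∀ p ∈ P, p.Prime ∧ p ≤ y) (T : ℤ) (F : Finset ℤ)
    (hF : ∀ t ∈ F, |t - T| ≤ H) (hk : y ^ (2 * k) ≤ 2 * H + 1)
    (hocc : ∀ p ∈ P, 2 * (F.image (fun t : ℤ => (t : ZMod p))).card ≤ p) :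
    (F.card : ℝ) * (P.card.choose k) ≤ 12 * (2 * H + 1) := by
  classical
  set g : ℤ → ℕ := fun t => (t - T + H + 1).toNat with hg
  have hgt : ∀ t ∈ F, ((g t : ℕ) : ℤ) = t - T + H + 1 := by
    intro t ht
    have := abs_le.1 (hF t ht)
    rw [hg]
    simp only
    rw [Int.toNat_of_nonneg]
    linarith [this.1]
  have hinj : Set.InjOn g F := by
    intro t ht t' ht' h
    have h1 := hgt t ht
    have h2 := hgt t' ht'
    rw [h] at h1
    linarith
  have h1 := large1 (2 * H + 1) k y P hP (F.image g) (by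
    intro n hn
    rw [mem_image] at hn
    obtain ⟨t, ht, rfl⟩ := hn
    have h2 := hgt t ht
    have h3 := abs_le.1 (hF t ht)
    rw [mem_Icc]
    constructor
    · have : (1 : ℤ) ≤ (g t : ℤ) := by rw [h2]; linarith [h3.1]
      exact_mod_cast this
    · have : ((g t : ℕ) : ℤ) ≤ ((2 * H + 1 : ℕ) : ℤ) := by
        rw [h2]; push_cast; linarith [h3.2]
      exact_mod_cast this) hk (by
    intro p hp
    refine le_trans (Nat.mul_le_mul_left _ ?_) (hocc p hp)
    have hpp : 0 < p := (hP p hp).1.pos
    have : NeZero p := ⟨hpp.ne'⟩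
    rw [Finset.image_image]
    -- the residue of `g t` is determined by that of `t`
    have h2 : F.image ((fun n => n % p) ∘ g) ⊆
        (F.image (fun t : ℤ => (t : ZMod p))).image (fun z : ZMod p => (z - T + H + 1).val) := by
      intro r hr
      rw [mem_image] at hr
      obtain ⟨t, ht, rfl⟩ := hr
      rw [mem_image]
      refine ⟨(t : ZMod p), mem_image_of_mem _ ht, ?_⟩
      have h3 := hgt t ht
      have h4 : ((t : ZMod p) - T + H + 1) = ((g t : ℕ) : ZMod p) := by
        have : (((g t : ℕ) : ℤ) : ZMod p) = ((t - T + H + 1 : ℤ) : ZMod p) := by rw [h3]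
        push_cast at this
        exact this.symm
      rw [h4, ZMod.val_natCast]
      rfl
    exact (Finset.card_le_card h2).trans Finset.card_image_le)
  rw [Finset.card_image_of_injOn hinj] at h1
  push_cast at h1
  exact h1

end Pool.Agent.U307.SK
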