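import Mathlib

set_option autoImplicit false

/-!
# The number of products of many small primes
-/

namespace Pool.Agent.U307.SK

open Filter Topology

theorem choose_lower (n k : ℕ) (hk : 1 ≤ k) : (((n + 1 - k : ℕ) : ℝ) / k) ^ k ≤ n.choose k := by
  have h1 := Nat.pow_sub_le_descFactorial n k
  rw [Nat.descFactorial_eq_factorial_mul_choose] at h1
  have h2 : (n + 1 - k) ^ k ≤ k ^ k * n.choose k :=
    h1.trans (Nat.mul_le_mul_right _ (Nat.factorial_le_pow k))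
  have h3 : (((n + 1 - k : ℕ) : ℝ)) ^ k ≤ (k : ℝ) ^ k * n.choose k := by exact_mod_cast h2
  have hk0 : (0 : ℝ) < (k : ℝ) ^ k := by positivity
  rw [div_pow, div_le_iff₀ hk0]
  linarith

/-- the conditions on `H` -/
theorem eventual (A e : ℝ) (hA : 1 < A) (he : 0 < e) : ∃ H₀ : ℕ, ∀ H : ℕ, H₀ ≤ H →
    1 ≤ Real.log H ∧ 3 ≤ H ∧ 16 ≤ ((⌊Real.log H ^ A⌋₊ : ℕ) : ℝ) ^ (e / 2) ∧
    2 ≤ ⌊Real.log H ^ A⌋₊ ∧ 108 * Real.log H ^ A ≤ (H : ℝ) ^ (e / 2) ∧
    Real.log H ^ A ≤ (H : ℝ) ^ (1 / 2 : ℝ) := by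
  have hA0 : 0 < A := by linarith
  have h1 : ∀ᶠ H : ℕ in atTop, 1 ≤ Real.log H :=
    (Real.tendsto_log_atTop.comp tendsto_natCast_atTop_atTop).eventually_ge_atTop 1
  have h2 : Tendsto (fun H : ℕ => Real.log H ^ A) atTop atTop :=
    (tendsto_rpow_atTop hA0).comp (Real.tendsto_log_atTop.comp tendsto_natCast_atTop_atTop)
  have h3 : Tendsto (fun H : ℕ => ⌊Real.log H ^ A⌋₊) atTop atTop := tendsto_nat_floor_atTop.comp h2
  have h4 : Tendsto (fun H : ℕ => ((⌊Real.log H ^ A⌋₊ : ℕ) : ℝ) ^ (e / 2)) atTop atTop :=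
    (tendsto_rpow_atTop (by positivity)).comp (tendsto_natCast_atTop_atTop.comp h3)
  have h5 : ∀ᶠ H : ℕ in atTop, 108 * Real.log H ^ A ≤ (H : ℝ) ^ (e / 2) := by
    have h6 := (isLittleO_log_rpow_rpow_atTop A (s := e / 2) (by positivity)).comp_tendsto
      (tendsto_natCast_atTop_atTop (R := ℝ))
    have h7 := h6.bound (show (0 : ℝ) < 1 / 108 by norm_num)
    filter_upwards [h7, h1] with H hH hH1
    simp only [Function.comp] at hH
    rw [Real.norm_of_nonneg (by positivity), Real.norm_of_nonneg (by positivity)] at hH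
    linarith
  have h8 : ∀ᶠ H : ℕ in atTop, Real.log H ^ A ≤ (H : ℝ) ^ (1 / 2 : ℝ) := by
    have h6 := (isLittleO_log_rpow_rpow_atTop A (s := 1 / 2) (by positivity)).comp_tendsto
      (tendsto_natCast_atTop_atTop (R := ℝ))
    have h7 := h6.bound (show (0 : ℝ) < 1 by norm_num)
    filter_upwards [h7, h1] with H hH hH1
    simp only [Function.comp] at hH
    rw [Real.norm_of_nonneg (by positivity), Real.norm_of_nonneg (by positivity)] at hH
    linarith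
  exact eventually_atTop.1 (h1.and ((eventually_ge_atTop 3).and ((h4.eventually_ge_atTop 16).and
    ((h3.eventually_ge_atTop 2).and (h5.and h8)))))

theorem asym (A ε : ℝ) (hA : 1 < A) (hε : 0 < ε) : ∃ θ : ℝ, 0 < θ ∧ θ < 1 ∧ ∃ H₀ : ℕ,
    ∀ H : ℕ, H₀ ≤ H → ∀ n : ℕ, ((⌊Real.log H ^ A⌋₊ : ℕ) : ℝ) ^ θ ≤ n →
      ∃ k : ℕ, ⌊Real.log H ^ A⌋₊ ^ (2 * k) ≤ 2 * H + 1 ∧
        12 * (2 * (H : ℝ) + 1) ≤ (n.choose k : ℝ) * (H : ℝ) ^ (1 / 2 + 1 / (2 * A) + ε) := by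
  have hA0 : 0 < A := by linarith
  have hinv1 : 1 / A < 1 := by rw [div_lt_one hA0]; exact hA
  have hinv0 : 0 < 1 / A := by positivity
  obtain ⟨e, he⟩ : ∃ e, e = min ε ((1 - 1 / A) / 2) := ⟨_, rfl⟩
  have he0 : 0 < e := by rw [he]; exact lt_min hε (by linarith)
  have he1 : e ≤ ε := by rw [he]; exact min_le_left _ _
  have he2 : 2 * e ≤ 1 - 1 / A := by
    have : e ≤ (1 - 1 / A) / 2 := by rw [he]; exact min_le_right _ _
    linarith
  obtain ⟨H₀, hH₀⟩ := eventual A e hA he0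
  refine ⟨1 - e / 2, by linarith, by linarith, H₀, fun H hH n hn => ?_⟩
  obtain ⟨hL1, hH3, hy16, hy2, h108, hhalf⟩ := hH₀ H hH
  obtain ⟨L, hL⟩ : ∃ L, L = Real.log H := ⟨_, rfl⟩
  rw [← hL] at hn hy16 hy2 h108 hhalf hL1 ⊢
  obtain ⟨y, hy⟩ : ∃ y, y = ⌊L ^ A⌋₊ := ⟨_, rfl⟩
  rw [← hy] at hn hy16 hy2 ⊢
  have hH0 : (0 : ℝ) < H := by exact_mod_cast (by omega : 0 < H)
  have hH1 : (1 : ℝ) ≤ H := by exact_mod_cast (by omega : 1 ≤ H)
  have hHr : (3 : ℝ) ≤ H := by exact_mod_cast hH3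
  have hyr : (2 : ℝ) ≤ y := by exact_mod_cast hy2
  have hy0 : (0 : ℝ) < y := by linarith
  have hLA : (y : ℝ) ≤ L ^ A := by rw [hy]; exact Nat.floor_le (by positivity)
  have hLA2 : L ^ A ≤ 2 * y := by
    have : L ^ A < y + 1 := by rw [hy]; exact Nat.lt_floor_add_one _
    linarith
  obtain ⟨m, hm⟩ : ∃ m, m = Nat.log y (2 * H + 1) := ⟨_, rfl⟩
  have hm1 : y ^ m ≤ 2 * H + 1 := by rw [hm]; exact Nat.pow_log_le_self _ (by omega)
  have hm2 : 2 * H + 1 < y ^ (m + 1) := by rw [hm]; exact Nat.lt_pow_succ_log_self (by omega) _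
  obtain ⟨k, hk⟩ : ∃ k, k = m / 2 := ⟨_, rfl⟩
  have hk1 : y ^ (2 * k) ≤ 2 * H + 1 :=
    (Nat.pow_le_pow_right (by omega) (by omega)).trans hm1
  have hk2 : 2 * H + 1 < y ^ (2 * (k + 1)) :=
    hm2.trans_le (Nat.pow_le_pow_right (by omega) (by omega))
  refine ⟨k, hk1, ?_⟩
  -- `k` is positive
  have hyH : (y : ℝ) ^ 2 ≤ H := by
    have h1 : (y : ℝ) ≤ (H : ℝ) ^ (1 / 2 : ℝ) := hLA.trans hhalf
    have h2 : (y : ℝ) ^ 2 ≤ ((H : ℝ) ^ (1 / 2 : ℝ)) ^ 2 := pow_le_pow_left₀ hy0.le h1 2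
    rw [← Real.sqrt_eq_rpow, Real.sq_sqrt hH0.le] at h2
    exact h2
  have hkpos : 1 ≤ k := by
    by_contra h0
    have hk0 : k = 0 := by omega
    rw [hk0] at hk2
    have h1 : (2 * (H : ℝ) + 1) < (y : ℝ) ^ 2 := by
      have : 2 * H + 1 < y ^ 2 := by simpa using hk2
      exact_mod_cast this
    linarith
  -- `k` is at most `4 L`
  have hkL : (k : ℝ) ≤ 4 * L := by
    have h1 : m ≤ Nat.log 2 (2 * H + 1) := by
      rw [hm]
      exact Nat.log_anti_left (by norm_num) hy2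
    have h2 : (2 : ℝ) ^ m ≤ 2 * H + 1 := by
      have : 2 ^ m ≤ 2 * H + 1 :=
        (Nat.pow_le_pow_right (by norm_num) h1).trans (Nat.pow_log_le_self _ (by omega))
      exact_mod_cast this
    have h3 : (m : ℝ) * Real.log 2 ≤ Real.log (2 * H + 1) := by
      rw [← Real.log_pow]
      exact Real.log_le_log (by positivity) h2
    have h4 : Real.log (2 * H + 1) ≤ 2 * L := by
      have : (2 * (H : ℝ) + 1) ≤ (H : ℝ) ^ 2 := by nlinarith
      calc Real.log (2 * H + 1) ≤ Real.log ((H : ℝ) ^ 2) := Real.log_le_log (by positivity) this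
        _ = 2 * L := by rw [Real.log_pow, hL]; norm_num
    have h5 : (1 / 2 : ℝ) ≤ Real.log 2 := by
      have := Real.log_two_gt_d9
      linarith
    have h6 : (m : ℝ) * (1 / 2) ≤ 2 * L := by
      have : (m : ℝ) * (1 / 2) ≤ m * Real.log 2 := mul_le_mul_of_nonneg_left h5 (by positivity)
      linarith
    have h7 : (k : ℝ) ≤ m := by
      have : k ≤ m := by omega
      exact_mod_cast this
    linarith
  have hk0 : (0 : ℝ) < k := by exact_mod_cast hkpos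
  -- `L ≤ 2 y ^ (1 / A)`
  have hLy : L ≤ 2 * (y : ℝ) ^ (1 / A) := by
    have h1 : L = (L ^ A) ^ (1 / A) := by
      rw [← Real.rpow_mul (by linarith), mul_one_div_cancel hA0.ne', Real.rpow_one]
    rw [h1]
    calc (L ^ A) ^ (1 / A) ≤ (2 * (y : ℝ)) ^ (1 / A) :=
          Real.rpow_le_rpow (by positivity) hLA2 hinv0.le
      _ = 2 ^ (1 / A) * (y : ℝ) ^ (1 / A) := Real.mul_rpow (by norm_num) hy0.le
      _ ≤ 2 * (y : ℝ) ^ (1 / A) := by
          apply mul_le_mul_of_nonneg_right _ (by positivity)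
          calc (2 : ℝ) ^ (1 / A) ≤ 2 ^ (1 : ℝ) :=
                Real.rpow_le_rpow_of_exponent_le (by norm_num) hinv1.le
            _ = 2 := Real.rpow_one 2
  -- the ratio
  have hy1 : (1 : ℝ) ≤ y := by linarith
  have hratio : (y : ℝ) ^ (1 - 1 / A - e) ≤ ((n + 1 - k : ℕ) : ℝ) / k := by
    have h1 : 8 * (2 * (y : ℝ) ^ (1 / A)) ≤ (y : ℝ) ^ (1 - e / 2) := by
      have h2 : (y : ℝ) ^ (1 - e / 2) = (y : ℝ) ^ (1 / A) * (y : ℝ) ^ (1 - 1 / A - e / 2) := by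
        rw [← Real.rpow_add hy0]; congr 1; ring
      have h3 : (16 : ℝ) ≤ (y : ℝ) ^ (1 - 1 / A - e / 2) :=
        hy16.trans (Real.rpow_le_rpow_of_exponent_le hy1 (by linarith))
      rw [h2]
      have h4 : (0 : ℝ) < (y : ℝ) ^ (1 / A) := by positivity
      nlinarith
    have h2 : 2 * (k : ℝ) ≤ (y : ℝ) ^ (1 - e / 2) := by
      calc 2 * (k : ℝ) ≤ 8 * L := by linarith
        _ ≤ 8 * (2 * (y : ℝ) ^ (1 / A)) := by linarith
        _ ≤ _ := h1
    have h3 : (y : ℝ) ^ (1 - e / 2) / 2 ≤ ((n + 1 - k : ℕ) : ℝ) := by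
      have h4 : (n : ℝ) + 1 ≤ ((n + 1 - k : ℕ) : ℝ) + k := by
        have : n + 1 ≤ (n + 1 - k) + k := by omega
        exact_mod_cast this
      linarith
    rw [le_div_iff₀ hk0]
    have h4 : (y : ℝ) ^ (1 - e / 2) = (y : ℝ) ^ (1 - 1 / A - e) * ((y : ℝ) ^ (1 / A) *
        (y : ℝ) ^ (e / 2)) := by
      rw [← Real.rpow_add hy0, ← Real.rpow_add hy0]; congr 1; ring
    have h5 : 2 * (k : ℝ) ≤ (y : ℝ) ^ (1 / A) * (y : ℝ) ^ (e / 2) := by
      have h6 : 2 * (k : ℝ) ≤ 16 * (y : ℝ) ^ (1 / A) := by linarith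
      have h7 : (0 : ℝ) < (y : ℝ) ^ (1 / A) := by positivity
      nlinarith
    have h6 : (0 : ℝ) < (y : ℝ) ^ (1 - 1 / A - e) := by positivity
    have h7 : (y : ℝ) ^ (1 - 1 / A - e) * (2 * k) ≤ (y : ℝ) ^ (1 - e / 2) := by
      rw [h4]
      exact mul_le_mul_of_nonneg_left h5 h6.le
    linarith
  have hchoose : ((y : ℝ) ^ (1 - 1 / A - e)) ^ k ≤ n.choose k :=
    (pow_le_pow_left₀ (by positivity) hratio k).trans (choose_lower n k hkpos)
  -- `N ^ (θ₂ / 2) ≤ y * y ^ (k θ₂)`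
  obtain ⟨t, ht⟩ : ∃ t, t = 1 - 1 / A - e := ⟨_, rfl⟩
  have ht0 : 0 < t := by rw [ht]; linarith
  have ht1 : t < 1 := by rw [ht]; linarith
  rw [← ht] at hchoose
  obtain ⟨N, hN⟩ : ∃ N : ℝ, N = 2 * (H : ℝ) + 1 := ⟨_, rfl⟩
  have hN0 : 0 < N := by rw [hN]; linarith
  have hNy : N ^ (t / 2) ≤ y * ((y : ℝ) ^ t) ^ k := by
    have h1 : N ≤ ((y : ℝ) ^ (k + 1)) ^ 2 := by
      rw [← pow_mul, mul_comm, hN]
      exact_mod_cast hk2.le
    calc N ^ (t / 2) ≤ (((y : ℝ) ^ (k + 1)) ^ 2) ^ (t / 2) :=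
          Real.rpow_le_rpow hN0.le h1 (by positivity)
      _ = ((y : ℝ) ^ (k + 1)) ^ t := by
          rw [← Real.rpow_natCast (((y : ℝ) ^ (k + 1))) 2, ← Real.rpow_mul (by positivity)]
          congr 1
          push_cast
          ring
      _ = ((y : ℝ) ^ t) ^ (k + 1) := by
          rw [← Real.rpow_natCast, ← Real.rpow_natCast, ← Real.rpow_mul hy0.le,
            ← Real.rpow_mul hy0.le]
          congr 1
          ring
      _ = (y : ℝ) ^ t * ((y : ℝ) ^ t) ^ k := by rw [pow_succ]; ring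
      _ ≤ y * ((y : ℝ) ^ t) ^ k := by
          apply mul_le_mul_of_nonneg_right _ (by positivity)
          calc (y : ℝ) ^ t ≤ (y : ℝ) ^ (1 : ℝ) := Real.rpow_le_rpow_of_exponent_le hy1 ht1.le
            _ = y := Real.rpow_one _
  have hmain : 12 * N * y ≤ N ^ (t / 2) * (H : ℝ) ^ (1 / 2 + 1 / (2 * A) + e) := by
    have h1 : N = N ^ (t / 2) * N ^ (1 - t / 2) := by
      rw [← Real.rpow_add hN0]
      have : t / 2 + (1 - t / 2) = 1 := by ring
      rw [this, Real.rpow_one]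
    have h2 : N ^ (1 - t / 2) ≤ 9 * (H : ℝ) ^ (1 - t / 2) := by
      have h3 : N ≤ 3 * H := by rw [hN]; linarith
      calc N ^ (1 - t / 2) ≤ (3 * (H : ℝ)) ^ (1 - t / 2) :=
            Real.rpow_le_rpow hN0.le h3 (by linarith)
        _ = 3 ^ (1 - t / 2) * (H : ℝ) ^ (1 - t / 2) := Real.mul_rpow (by norm_num) hH0.le
        _ ≤ 9 * (H : ℝ) ^ (1 - t / 2) := by
            apply mul_le_mul_of_nonneg_right _ (by positivity)
            calc (3 : ℝ) ^ (1 - t / 2) ≤ 3 ^ (2 : ℝ) :=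
                  Real.rpow_le_rpow_of_exponent_le (by norm_num) (by linarith)
              _ = 9 := by norm_num
    have h3 : (H : ℝ) ^ (1 / 2 + 1 / (2 * A) + e) = (H : ℝ) ^ (1 - t / 2) * (H : ℝ) ^ (e / 2) := by
      rw [← Real.rpow_add hH0]
      congr 1
      rw [ht]
      field_simp
      ring
    have h4 : 108 * (y : ℝ) ≤ (H : ℝ) ^ (e / 2) := by linarith
    rw [h3]
    have h5 : (0 : ℝ) < (H : ℝ) ^ (1 - t / 2) := by positivity
    have h6 : (0 : ℝ) < N ^ (t / 2) := by positivity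
    calc 12 * N * y = N ^ (t / 2) * (N ^ (1 - t / 2) * (12 * y)) := by
          conv_lhs => rw [h1]
          ring
      _ ≤ N ^ (t / 2) * (9 * (H : ℝ) ^ (1 - t / 2) * (12 * y)) := by
          apply mul_le_mul_of_nonneg_left _ h6.le
          exact mul_le_mul_of_nonneg_right h2 (by positivity)
      _ = N ^ (t / 2) * ((H : ℝ) ^ (1 - t / 2) * (108 * y)) := by ring
      _ ≤ N ^ (t / 2) * ((H : ℝ) ^ (1 - t / 2) * (H : ℝ) ^ (e / 2)) := by
          apply mul_le_mul_of_nonneg_left _ h6.le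
          exact mul_le_mul_of_nonneg_left h4 h5.le
  have hfin : 12 * N ≤ (n.choose k : ℝ) * (H : ℝ) ^ (1 / 2 + 1 / (2 * A) + e) := by
    have h5 : (0 : ℝ) < (H : ℝ) ^ (1 / 2 + 1 / (2 * A) + e) := by positivity
    have h6 : 12 * N * y ≤ y * ((n.choose k : ℝ) * (H : ℝ) ^ (1 / 2 + 1 / (2 * A) + e)) := by
      refine hmain.trans ?_
      calc N ^ (t / 2) * (H : ℝ) ^ (1 / 2 + 1 / (2 * A) + e)
          ≤ (y * ((y : ℝ) ^ t) ^ k) * (H : ℝ) ^ (1 / 2 + 1 / (2 * A) + e) :=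
            mul_le_mul_of_nonneg_right hNy h5.le
        _ ≤ (y * (n.choose k : ℝ)) * (H : ℝ) ^ (1 / 2 + 1 / (2 * A) + e) := by
            apply mul_le_mul_of_nonneg_right _ h5.le
            exact mul_le_mul_of_nonneg_left hchoose hy0.le
        _ = _ := by ring
    nlinarith
  rw [← hN]
  refine hfin.trans ?_
  apply mul_le_mul_of_nonneg_left _ (by positivity)
  exact Real.rpow_le_rpow_of_exponent_le hH1 (by linarith)

end Pool.Agent.U307.SK
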