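import Mathlib
import Pool.Agent.H484R2.Pit
import Pool.Agent.H684R3.Smo.Task9

set_option autoImplicit false

/-!
# The number of the primes modulo which a monic polynomial splits
-/

namespace Pool.Agent.U307.SK

open Filter Topology Polynomial NumberField
open Pool.Agent.H884R2.Sko Pool.Agent.H692R2.USS Pool.Agent.H684R3.Smo
open scoped Classical

/-- the primes `p₀ ≤ p ≤ y` modulo which `g` splits -/
noncomputable def PP (g : ℤ[X]) (p₀ y : ℕ) : Finset ℕ :=
  (Finset.range (y + 1)).filter fun p => p.Prime ∧ p₀ ≤ p ∧ (g.map (Int.castRingHom (ZMod p))).Splits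

theorem splitField_hom (g : ℤ[X]) (hg : g.Monic) : ∃ (K : Type) (_ : Field K) (_ : NumberField K),
    ∀ p : ℕ, p.Prime → Nonempty (𝓞 K →+* ZMod p) → (g.map (Int.castRingHom (ZMod p))).Splits := by
  let K : Type := (g.map (algebraMap ℤ ℚ)).SplittingField
  letI : Field K := inferInstanceAs (Field (g.map (algebraMap ℤ ℚ)).SplittingField)
  haveI hNF : NumberField K :=
    { to_charZero := inferInstanceAs (CharZero (g.map (algebraMap ℤ ℚ)).SplittingField)
      to_finiteDimensional :=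
        inferInstanceAs (FiniteDimensional ℚ (g.map (algebraMap ℤ ℚ)).SplittingField) }
  refine ⟨K, inferInstance, hNF, ?_⟩
  have h0 : (g.map (algebraMap ℤ K)).Splits := by
    have h1 : (g.map (algebraMap ℤ ℚ)).map (algebraMap ℚ K) = g.map (algebraMap ℤ K) := by
      rw [Polynomial.map_map]
      congr 1
    have h2 : ((g.map (algebraMap ℤ ℚ)).map (algebraMap ℚ K)).Splits :=
      Polynomial.SplittingField.splits (g.map (algebraMap ℤ ℚ))
    rwa [h1] at h2
  rintro p hp ⟨φ⟩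
  have : Fact p.Prime := ⟨hp⟩
  have h1 := SplitFieldAux.splits_OK K g hg h0
  have h2 := h1.map φ
  rw [Polynomial.map_map] at h2
  have h3 : φ.comp (algebraMap ℤ (𝓞 K)) = Int.castRingHom (ZMod p) := RingHom.ext_int _ _
  rwa [h3] at h2

theorem pi_lower (θ : ℝ) (hθ : θ < 1) : ∃ y₀ : ℕ, ∀ y : ℕ, y₀ ≤ y →
    (y : ℝ) ^ θ ≤ Nat.primeCounting y := by
  obtain ⟨y₀, h⟩ := t9 θ 0 hθ
  refine ⟨y₀, fun y hy => (h y hy).trans (le_of_eq ?_)⟩
  have e : Nat.primeCounting y = ((Finset.range (y + 1)).filter Nat.Prime).card := by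
    unfold Nat.primeCounting Nat.primeCounting'
    rw [Nat.count_eq_card_filter_range]
  rw [e, Nat.subtype_card]
  intro p
  rw [Finset.mem_filter, Finset.mem_range]
  constructor
  · rintro ⟨h1, h2⟩
    exact ⟨⟨h2, Nat.zero_le _⟩, by omega⟩
  · rintro ⟨⟨h1, _⟩, h2⟩
    exact ⟨by omega, h1⟩

theorem many (g : ℤ[X]) (hg : g.Monic) (p₀ : ℕ) (θ : ℝ) (hθ0 : 0 < θ) (hθ : θ < 1) :
    ∃ y₀ : ℕ, ∀ y : ℕ, y₀ ≤ y → (y : ℝ) ^ θ ≤ (PP g p₀ y).card := by
  obtain ⟨K, hF, hNF, hK⟩ := splitField_hom g hg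
  obtain ⟨θ', hθ', hθ'1⟩ := exists_between hθ
  obtain ⟨y₁, h1⟩ := pi_lower θ' hθ'1
  have hpit := @Pool.Agent.H484R2.pit K hF hNF
  have hev := hpit.eventually (Ioi_mem_nhds (show (1 / 2 : ℝ) < 1 by norm_num))
  obtain ⟨y₂, h2⟩ := eventually_atTop.1 hev
  set n : ℝ := (Module.finrank ℚ K : ℝ) with hn
  have hnpos : 0 < n := by
    have : 0 < Module.finrank ℚ K := Module.finrank_pos
    rw [hn]
    exact_mod_cast this
  -- `y ^ θ' / (2 n) - p₀ ≥ y ^ θ` eventually
  have hev3 : ∀ᶠ y : ℕ in atTop, 2 * n * (1 + p₀) ≤ (y : ℝ) ^ (θ' - θ) ∧ 1 ≤ y := by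
    have h3 : Tendsto (fun y : ℕ => (y : ℝ) ^ (θ' - θ)) atTop atTop :=
      (tendsto_rpow_atTop (by linarith)).comp tendsto_natCast_atTop_atTop
    exact (h3.eventually_ge_atTop _).and (eventually_ge_atTop 1)
  obtain ⟨y₃, h3⟩ := eventually_atTop.1 hev3
  refine ⟨max y₁ (max y₂ (max y₃ 2)), fun y hy => ?_⟩
  have hy1 : y₁ ≤ y := (le_max_left _ _).trans hy
  have hy2 : y₂ ≤ y := (le_max_left _ _).trans ((le_max_right _ _).trans hy)
  have hy3 : y₃ ≤ y := (le_max_left _ _).trans ((le_max_right _ _).trans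
    ((le_max_right _ _).trans hy))
  have hy4 : 2 ≤ y := (le_max_right _ _).trans ((le_max_right _ _).trans
    ((le_max_right _ _).trans hy))
  have hpi := h1 y hy1
  have hsum := h2 y hy2
  change (1 / 2 : ℝ) < _ at hsum
  obtain ⟨hbig, hyone⟩ := h3 y hy3
  have hpi0 : (0 : ℝ) < Nat.primeCounting y := by
    have : Nat.primeCounting y ≠ 0 := by
      rw [Ne, Nat.primeCounting_eq_zero_iff]
      omega
    positivity
  rw [lt_div_iff₀ hpi0] at hsum
  have hupper : ∑ p ∈ (Finset.range (y + 1)).filter Nat.Prime, (Nat.card (𝓞 K →+* ZMod p) : ℝ) ≤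
      n * ((PP g p₀ y).card + p₀) := by
    have hsub : ((Finset.range (y + 1)).filter Nat.Prime).filter
        (fun p => Nat.card (𝓞 K →+* ZMod p) ≠ 0) ⊆ PP g p₀ y ∪ Finset.range p₀ := by
      intro p hp
      rw [Finset.mem_filter, Finset.mem_filter, Finset.mem_range] at hp
      rw [Finset.mem_union]
      by_cases hpp : p₀ ≤ p
      · left
        unfold PP
        rw [Finset.mem_filter, Finset.mem_range]
        exact ⟨hp.1.1, hp.1.2, hpp, hK p hp.1.2 (Nat.card_ne_zero.1 hp.2).1⟩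
      · right
        rw [Finset.mem_range]
        omega
    have hcard := (Finset.card_le_card hsub).trans (Finset.card_union_le _ _)
    rw [Finset.card_range] at hcard
    rw [← Finset.sum_filter_ne_zero]
    have hfe : ((Finset.range (y + 1)).filter Nat.Prime).filter
        (fun p => (Nat.card (𝓞 K →+* ZMod p) : ℝ) ≠ 0) =
        ((Finset.range (y + 1)).filter Nat.Prime).filter
        (fun p => Nat.card (𝓞 K →+* ZMod p) ≠ 0) := by
      apply Finset.filter_congr
      intro p _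
      exact_mod_cast Iff.rfl
    rw [hfe]
    calc ∑ p ∈ ((Finset.range (y + 1)).filter Nat.Prime).filter
          (fun p => Nat.card (𝓞 K →+* ZMod p) ≠ 0), (Nat.card (𝓞 K →+* ZMod p) : ℝ)
        ≤ ∑ p ∈ ((Finset.range (y + 1)).filter Nat.Prime).filter
          (fun p => Nat.card (𝓞 K →+* ZMod p) ≠ 0), n := by
          refine Finset.sum_le_sum fun p hp => ?_
          rw [Finset.mem_filter, Finset.mem_filter] at hp
          exact H332.PIT.hc_cast_le hp.1.2
      _ = (((Finset.range (y + 1)).filter Nat.Prime).filter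
          (fun p => Nat.card (𝓞 K →+* ZMod p) ≠ 0)).card * n := by
          rw [Finset.sum_const, nsmul_eq_mul]
      _ ≤ n * ((PP g p₀ y).card + p₀) := by
          rw [mul_comm]
          apply mul_le_mul_of_nonneg_left _ hnpos.le
          exact_mod_cast hcard
  have hy0 : (0 : ℝ) < y := by exact_mod_cast (by omega : 0 < y)
  have e1 : (y : ℝ) ^ θ' = (y : ℝ) ^ θ * (y : ℝ) ^ (θ' - θ) := by
    rw [← Real.rpow_add hy0]; congr 1; ring
  have h6 : (y : ℝ) ^ θ' ≤ 2 * n * ((PP g p₀ y).card + p₀) := by linarith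
  have hθpos : 0 < (y : ℝ) ^ θ := by positivity
  have hp0 : (0 : ℝ) ≤ (p₀ : ℝ) := by positivity
  have h7 : (1 : ℝ) ≤ (y : ℝ) ^ θ := Real.one_le_rpow (by exact_mod_cast hyone) hθ0.le
  have h8 : (y : ℝ) ^ θ * (2 * n * (1 + p₀)) ≤ (y : ℝ) ^ θ' := by
    rw [e1]
    exact mul_le_mul_of_nonneg_left hbig hθpos.le
  have h9 : (y : ℝ) ^ θ * (1 + p₀) ≤ (PP g p₀ y).card + p₀ := by
    have : (2 * n) * ((y : ℝ) ^ θ * (1 + p₀)) ≤ (2 * n) * ((PP g p₀ y).card + p₀) := by linarith
    exact le_of_mul_le_mul_left this (by positivity)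
  nlinarith

end Pool.Agent.U307.SK
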