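import Mathlib
import Pool.Agent.H684R3.Smo.Task7

set_option autoImplicit false

/-!
# Primes modulo which the solutions of a recurrence have period `(p - 1) / k`
-/

namespace Pool.Agent.U307.SK

open Polynomial Finset
open Pool.Agent.H884R2.Sko Pool.Agent.H692R2.USS Pool.Agent.H684R3.Smo

theorem dvd_of_cyclotomic (p k : ℕ) [Fact p.Prime] (hk : 1 ≤ k) (hpk : ¬ p ∣ k)
    (h3 : (cyclotomic k (ZMod p)).Splits) : k ∣ p - 1 := by
  have hp : p.Prime := Fact.out
  have hlne : NeZero ((k : ℕ) : ZMod p) := by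
    refine ⟨fun h => hpk ?_⟩
    rwa [ZMod.natCast_eq_zero_iff] at h
  obtain ⟨μ, hμ⟩ := h3.exists_eval_eq_zero (by
    rw [degree_cyclotomic]
    have := Nat.totient_pos.2 hk
    exact_mod_cast this.ne')
  have hprim : IsPrimitiveRoot μ k := isRoot_cyclotomic_iff.1 hμ
  apply hprim.dvd_of_pow_eq_one
  apply ZMod.pow_card_sub_one_eq_one
  rintro rfl
  have := hprim.pow_eq_one
  rw [zero_pow (by omega)] at this
  exact zero_ne_one this

theorem pow_one_of_split (p k : ℕ) [Fact p.Prime] (hk : 1 ≤ k) (hdvd : k ∣ p - 1) (a : ZMod p)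
    (ha : a ≠ 0) (h : (X ^ k - C a : (ZMod p)[X]).Splits) : a ^ ((p - 1) / k) = 1 := by
  obtain ⟨β, hβ⟩ := h.exists_eval_eq_zero (by
    rw [degree_X_pow_sub_C (by omega)]
    exact_mod_cast (by omega : k ≠ 0))
  rw [eval_sub, eval_pow, eval_X, eval_C, sub_eq_zero] at hβ
  have hβ0 : β ≠ 0 := by
    rintro rfl
    rw [zero_pow (by omega)] at hβ
    exact ha hβ.symm
  rw [← hβ, ← pow_mul, Nat.mul_div_cancel' hdvd]
  exact ZMod.pow_card_sub_one_eq_one hβ0

open Classical in
theorem period_k (p k : ℕ) [Fact p.Prime] (hk : 1 ≤ k) (hdvd : k ∣ p - 1) {d : ℕ}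
    (c : Fin d → ZMod p) (h1 : (chi c).Splits) (h2 : (expand (ZMod p) k (chi c)).Splits)
    (hsep : (chi c).Separable) (h0 : (chi c).coeff 0 ≠ 0) (v : Fin d → ZMod p) (n : ℕ) :
    seq c v (n + (p - 1) / k) = seq c v n := by
  have hp : p.Prime := Fact.out
  have hne : chi c ≠ 0 := (chi_monic c).ne_zero
  set S : Finset (ZMod p) := (chi c).roots.toFinset with hS
  have hnd : (chi c).roots.Nodup := nodup_roots hsep
  have hval : S.val = (chi c).roots := by
    rw [hS, Multiset.toFinset_val, hnd.dedup]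
  have hcard : S.card = d := by
    rw [Finset.card_def, hval, ← h1.natDegree_eq_card_roots, chi_natDegree]
  have hpoly : poly S = chi c := by
    unfold poly
    rw [Finset.prod_eq_multiset_prod, hval]
    exact (h1.eq_prod_roots_of_monic (chi_monic c)).symm
  have hcoef : coef d S = c := by
    funext i
    unfold coef
    rw [hpoly, chi_coeff, neg_neg]
  have hST : ∀ a ∈ S, a ^ ((p - 1) / k) = 1 := by
    intro a ha
    rw [hS, Multiset.mem_toFinset, mem_roots hne] at ha
    have ha0 : a ≠ 0 := by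
      rintro rfl
      rw [IsRoot, ← coeff_zero_eq_eval_zero] at ha
      exact h0 ha
    have h4 : (X ^ k - C a : (ZMod p)[X]) ∣ expand (ZMod p) k (chi c) := by
      have h5 := map_dvd (expand (ZMod p) k) (dvd_iff_isRoot.2 ha)
      rwa [map_sub, expand_X, expand_C] at h5
    have h6 : expand (ZMod p) k (chi c) ≠ 0 := by
      rw [Ne, expand_eq_zero (by omega)]; exact hne
    exact pow_one_of_split p k hk hdvd a ha0 (h2.of_dvd h6 h4)
  have h8 := seq_periodic d ((p - 1) / k) S hcard hST v n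
  rwa [hcoef] at h8

/-- For all the large primes modulo which `g` splits: `k` divides `p - 1`, the solutions of the
recurrence have period `(p - 1) / k`, and `β ^ ((p - 1) / k) = 1`. -/
theorem split_primes (k : ℕ) (hk : 1 ≤ k) {d : ℕ} (c : Fin d → ℤ)
    (h0 : (chi c).coeff 0 ≠ 0) (hsq : Squarefree ((chi c).map (Int.castRingHom ℚ)))
    (β : ℤ) (hβ : β ≠ 0) :
    ∃ (g : ℤ[X]) (p₀ : ℕ), g.Monic ∧ ∀ p : ℕ, p.Prime → p₀ ≤ p →
      (g.map (Int.castRingHom (ZMod p))).Splits →
      k ∣ p - 1 ∧ ((chi c).coeff 0 : ZMod p) ≠ 0 ∧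
      (∀ (v : Fin d → ZMod p) (n : ℕ), seq (fun i => (c i : ZMod p)) v (n + (p - 1) / k) =
        seq (fun i => (c i : ZMod p)) v n) ∧
      (β : ZMod p) ≠ 0 ∧ (β : ZMod p) ^ ((p - 1) / k) = 1 := by
  obtain ⟨r, hr0, hr⟩ := separable_mod (chi c) hsq
  set G : ℤ[X] := chi c * (expand ℤ k (chi c) * (cyclotomic k ℤ * (X ^ k - C β))) with hG
  have hβm : (X ^ k - C β : ℤ[X]).Monic := monic_X_pow_sub_C _ (by omega)
  have hGm : G.Monic := (chi_monic c).mul (((chi_monic c).expand (by omega)).mul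
    ((cyclotomic.monic k ℤ).mul hβm))
  refine ⟨G, 3 + k + r.natAbs + ((chi c).coeff 0).natAbs + β.natAbs, hGm, fun p hp hpN hsp => ?_⟩
  have : Fact p.Prime := ⟨hp⟩
  have hGne : G.map (Int.castRingHom (ZMod p)) ≠ 0 := (hGm.map _).ne_zero
  have hdv : ∀ z : ℤ, z ≠ 0 → z.natAbs < p → ¬ (p : ℤ) ∣ z := by
    intro z hz hzp hdvd
    have := Int.natAbs_dvd_natAbs.2 hdvd
    rw [Int.natAbs_natCast] at this
    exact absurd (Nat.le_of_dvd (Int.natAbs_pos.2 hz) this) (not_le.2 hzp)
  have hcm : (chi c).map (Int.castRingHom (ZMod p)) = chi (fun i => (c i : ZMod p)) := by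
    rw [chi_map]; rfl
  have e1 : (chi (fun i => (c i : ZMod p))) ∣ G.map (Int.castRingHom (ZMod p)) := by
    rw [← hcm, hG, Polynomial.map_mul]; exact dvd_mul_right _ _
  have e2 : expand (ZMod p) k (chi (fun i => (c i : ZMod p))) ∣
      G.map (Int.castRingHom (ZMod p)) := by
    rw [← hcm, ← map_expand, hG, Polynomial.map_mul, Polynomial.map_mul]
    exact (dvd_mul_right _ _).mul_left _
  have e3 : cyclotomic k (ZMod p) ∣ G.map (Int.castRingHom (ZMod p)) := by
    rw [← map_cyclotomic k (Int.castRingHom (ZMod p)), hG, Polynomial.map_mul,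
      Polynomial.map_mul, Polynomial.map_mul]
    exact ((dvd_mul_right _ _).mul_left _).mul_left _
  have e4 : (X ^ k - C (β : ZMod p) : (ZMod p)[X]) ∣ G.map (Int.castRingHom (ZMod p)) := by
    have : (X ^ k - C (β : ZMod p) : (ZMod p)[X]) =
        (X ^ k - C β : ℤ[X]).map (Int.castRingHom (ZMod p)) := by
      rw [Polynomial.map_sub, Polynomial.map_pow, map_X, map_C, eq_intCast]
    rw [this, hG, Polynomial.map_mul, Polynomial.map_mul, Polynomial.map_mul]
    exact ((dvd_mul_left _ _).mul_left _).mul_left _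
  have hsep : (chi (fun i => (c i : ZMod p))).Separable := by
    rw [← hcm]
    exact hr p hp (hdv r hr0 (by omega))
  have hc0 : (chi (fun i => (c i : ZMod p))).coeff 0 ≠ 0 := by
    rw [← hcm, coeff_map, eq_intCast, Ne, ZMod.intCast_zmod_eq_zero_iff_dvd]
    exact hdv _ h0 (by omega)
  have hβ0 : (β : ZMod p) ≠ 0 := by
    rw [Ne, ZMod.intCast_zmod_eq_zero_iff_dvd]
    exact hdv _ hβ (by omega)
  have hdvd : k ∣ p - 1 := dvd_of_cyclotomic p k hk (by
    intro h
    exact absurd (Nat.le_of_dvd (by omega) h) (by omega)) (hsp.of_dvd hGne e3)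
  refine ⟨hdvd, ?_, fun v n => period_k p k hk hdvd _ (hsp.of_dvd hGne e1) (hsp.of_dvd hGne e2)
    hsep hc0 v n, hβ0, pow_one_of_split p k hk hdvd _ hβ0 (hsp.of_dvd hGne e4)⟩
  rw [← hcm, coeff_map, eq_intCast] at hc0
  exact hc0

end Pool.Agent.U307.SK
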