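import Mathlib
import Pool.Agent.U307.SK.A
import Pool.Agent.U307.SK.B
import Pool.Agent.U307.SK.C

set_option autoImplicit false

/-!
# One-parameter families: the sieve in asymptotic form
-/

namespace Pool.Agent.U307.SK

open Filter Topology Polynomial Finset
open scoped Classical

/-- A set of integers in an interval of length `2 H` which lies in at most `p / 2` residue classes
modulo many primes `p ≤ (log H) ^ A` has at most `H ^ (1 / 2 + 1 / (2 A) + ε)` elements. -/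
theorem sieve (A ε : ℝ) (hA : 1 < A) (hε : 0 < ε) : ∃ θ : ℝ, 0 < θ ∧ θ < 1 ∧ ∃ H₀ : ℕ,
    ∀ H : ℕ, H₀ ≤ H → ∀ P : Finset ℕ, (∀ p ∈ P, p.Prime ∧ p ≤ ⌊Real.log H ^ A⌋₊) →
    ((⌊Real.log H ^ A⌋₊ : ℕ) : ℝ) ^ θ ≤ (P.card : ℝ) →
    ∀ (T : ℤ) (F : Finset ℤ), (∀ t ∈ F, |t - T| ≤ H) → ∀ B : (p : ℕ) → Finset (ZMod p),
      (∀ p ∈ P, 2 * (B p).card ≤ p) → (∀ p ∈ P, ∀ t ∈ F, (t : ZMod p) ∈ B p) →
      (F.card : ℝ) ≤ (H : ℝ) ^ (1 / 2 + 1 / (2 * A) + ε) := by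
  obtain ⟨θ, h0, h1, H₀, h⟩ := asym A ε hA hε
  refine ⟨θ, h0, h1, H₀, fun H hH P hP hPc T F hF B hB hFB => ?_⟩
  obtain ⟨k, hk, hbig⟩ := h H hH P.card hPc
  have h2 := large2 H k _ P hP T F hF hk (by
    intro p hp
    refine (Nat.mul_le_mul_left 2 (Finset.card_le_card ?_)).trans (hB p hp)
    intro x hx
    rw [Finset.mem_image] at hx
    obtain ⟨t, ht, rfl⟩ := hx
    exact hFB p hp t ht)
  have h3 : (0 : ℝ) < 12 * (2 * (H : ℝ) + 1) := by positivity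
  have hch : (0 : ℝ) < (P.card.choose k : ℝ) := by
    have h4 : 0 ≤ (P.card.choose k : ℝ) := by positivity
    rcases h4.lt_or_eq with h5 | h5
    · exact h5
    · rw [← h5, zero_mul] at hbig
      linarith
  have h6 : (P.card.choose k : ℝ) * (F.card : ℝ) ≤
      (P.card.choose k : ℝ) * (H : ℝ) ^ (1 / 2 + 1 / (2 * A) + ε) := by
    linarith [mul_comm (F.card : ℝ) (P.card.choose k : ℝ)]
  exact le_of_mul_le_mul_left h6 hch

theorem roots_union (p m D : ℕ) [Fact p.Prime] (Q : ℕ → (ZMod p)[X])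
    (hD : ∀ n, (Q n).natDegree ≤ D) (h : 2 * (m * D) ≤ p) :
    2 * ((range m).biUnion (fun n => (Q n).roots.toFinset)).card ≤ p := by
  refine (Nat.mul_le_mul_left 2 ?_).trans h
  refine (Finset.card_biUnion_le_card_mul _ _ D fun n _ => ?_).trans (by rw [card_range])
  exact (Multiset.toFinset_card_le _).trans ((Polynomial.card_roots' _).trans (hD n))

/-- The one-parameter family `n ↦ Q n (t)`. -/
theorem oneparam (A ε : ℝ) (hA : 1 < A) (hε : 0 < ε) : ∃ θ : ℝ, 0 < θ ∧ θ < 1 ∧ ∃ H₀ : ℕ,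
    ∀ H : ℕ, H₀ ≤ H → ∀ P : Finset ℕ, (∀ p ∈ P, p.Prime ∧ p ≤ ⌊Real.log H ^ A⌋₊) →
    ((⌊Real.log H ^ A⌋₊ : ℕ) : ℝ) ^ θ ≤ (P.card : ℝ) →
    ∀ (T : ℤ) (D k : ℕ), 2 * D ≤ k → 1 ≤ k → (∀ p ∈ P, k ∣ p - 1) → ∀ Q : ℕ → ℤ[X],
      (∀ n, (Q n).natDegree ≤ D) →
      (∀ p ∈ P, ∀ n, (Q n).map (Int.castRingHom (ZMod p)) ≠ 0 ∧
        (Q (n + (p - 1) / k)).map (Int.castRingHom (ZMod p)) =
          (Q n).map (Int.castRingHom (ZMod p))) →
      (((Icc (T - H) (T + H)).filter (fun t : ℤ => ∀ p ∈ P, ∃ n, (p : ℤ) ∣ (Q n).eval t)).card : ℝ)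
        ≤ (H : ℝ) ^ (1 / 2 + 1 / (2 * A) + ε) := by
  obtain ⟨θ, h0, h1, H₀, h⟩ := sieve A ε hA hε
  refine ⟨θ, h0, h1, H₀, fun H hH P hP hPc T D k hDk hk1 hkp Q hQD hQ => ?_⟩
  refine h H hH P hP hPc T _ ?_ (fun p => if hp : p.Prime then
    haveI : Fact p.Prime := ⟨hp⟩
    (range ((p - 1) / k)).biUnion
      (fun n => ((Q n).map (Int.castRingHom (ZMod p))).roots.toFinset) else ∅) ?_ ?_
  · intro t ht
    rw [mem_filter, mem_Icc] at ht
    rw [abs_le]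
    constructor <;> linarith [ht.1.1, ht.1.2]
  · intro p hp
    rw [dif_pos (hP p hp).1]
    have : Fact p.Prime := ⟨(hP p hp).1⟩
    refine roots_union p ((p - 1) / k) D _
      (fun n => (natDegree_map_le).trans (hQD n)) ?_
    obtain ⟨q, hq⟩ := hkp p hp
    have hkp : (p - 1) / k = q := by
      rw [hq, Nat.mul_div_cancel_left _ (by omega)]
    rw [hkp]
    calc 2 * (q * D) = q * (2 * D) := by ring
      _ ≤ q * k := Nat.mul_le_mul_left _ hDk
      _ = p - 1 := by rw [hq]; ring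
      _ ≤ p := Nat.sub_le _ _
  · intro p hp t ht
    rw [mem_filter] at ht
    obtain ⟨n, hn⟩ := ht.2 p hp
    rw [dif_pos (hP p hp).1]
    have : Fact p.Prime := ⟨(hP p hp).1⟩
    have hpp : p.Prime := (hP p hp).1
    obtain ⟨q, hq⟩ := hkp p hp
    have hkp : (p - 1) / k = q := by
      rw [hq, Nat.mul_div_cancel_left _ (by omega)]
    have hq0 : 0 < q := by
      rcases Nat.eq_zero_or_pos q with h2 | h2
      · rw [h2] at hq
        have := hpp.two_le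
        omega
      · exact h2
    have hper : ∀ j m, (Q (m + q * j)).map (Int.castRingHom (ZMod p)) =
        (Q m).map (Int.castRingHom (ZMod p)) := by
      intro j
      induction j with
      | zero => intro m; rfl
      | succ j ih =>
        intro m
        have h3 := (hQ p hp (m + q * j)).2
        rw [hkp] at h3
        rw [Nat.mul_succ, ← add_assoc, h3, ih]
    rw [mem_biUnion]
    refine ⟨n % q, ?_, ?_⟩
    · rw [mem_range, hkp]
      exact Nat.mod_lt _ hq0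
    · rw [Multiset.mem_toFinset, mem_roots (hQ p hp _).1, IsRoot]
      have h4 := hper (n / q) (n % q)
      rw [Nat.mod_add_div] at h4
      rw [← h4, eval_map, eval₂_at_intCast, eq_intCast, ZMod.intCast_zmod_eq_zero_iff_dvd]
      exact_mod_cast hn

theorem few (m : ℤ) (hm : m ≠ 0) (P : Finset ℕ) (hP : ∀ p ∈ P, p.Prime) (X : ℝ)
    (hX : |(m : ℝ)| ≤ X) :
    ((P.filter (fun p : ℕ => (p : ℤ) ∣ m)).card : ℝ) * Real.log 2 ≤ Real.log X := by
  have hm0 : 0 < m.natAbs := Int.natAbs_pos.2 hm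
  have h1 : P.filter (fun p : ℕ => (p : ℤ) ∣ m) ⊆ m.natAbs.primeFactors := by
    intro p hp
    rw [mem_filter] at hp
    rw [Nat.mem_primeFactors]
    refine ⟨hP p hp.1, ?_, hm0.ne'⟩
    have := Int.natAbs_dvd_natAbs.2 hp.2
    rwa [Int.natAbs_natCast] at this
  have h2 : 2 ^ m.natAbs.primeFactors.card ≤ m.natAbs := by
    refine le_trans ?_ (Nat.le_of_dvd hm0 (Nat.prod_primeFactors_dvd m.natAbs))
    exact Finset.pow_card_le_prod _ _ _ fun p hp => (Nat.prime_of_mem_primeFactors hp).two_le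
  have h3 : 2 ^ (P.filter (fun p : ℕ => (p : ℤ) ∣ m)).card ≤ m.natAbs :=
    (Nat.pow_le_pow_right (by norm_num) (Finset.card_le_card h1)).trans h2
  have h4 : ((2 : ℝ) ^ (P.filter (fun p : ℕ => (p : ℤ) ∣ m)).card) ≤ X := by
    refine le_trans ?_ hX
    have h5 : ((2 ^ (P.filter (fun p : ℕ => (p : ℤ) ∣ m)).card : ℕ) : ℝ) ≤ (m.natAbs : ℝ) := by
      exact_mod_cast h3
    have h6 : ((m.natAbs : ℕ) : ℝ) = |(m : ℝ)| := by
      rw [Nat.cast_natAbs]
      push_cast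
      rfl
    rw [h6] at h5
    push_cast at h5
    exact h5
  have h7 := Real.log_le_log (by positivity) h4
  rwa [Real.log_pow] at h7

/-- There are many primes `p ≤ (log H) ^ A` modulo which `g` splits. -/
theorem supply (g : ℤ[X]) (hg : g.Monic) (p₀ : ℕ) (A : ℝ) (hA : 1 < A) (θ : ℝ) (hθ0 : 0 < θ)
    (hθ : θ < 1) (K : ℝ) : ∃ H₀ : ℕ, ∀ H : ℕ, H₀ ≤ H →
      8 * ((⌊Real.log H ^ A⌋₊ : ℕ) : ℝ) ^ θ + K * Real.log H ≤
        ((PP g p₀ ⌊Real.log H ^ A⌋₊).card : ℝ) := by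
  have hA0 : 0 < A := by linarith
  have hinv1 : 1 / A < 1 := by rw [div_lt_one hA0]; exact hA
  obtain ⟨θ', h1, h2⟩ := exists_between (max_lt hθ hinv1)
  have hθθ' : θ < θ' := (le_max_left _ _).trans_lt h1
  have hAθ' : 1 < A * θ' := by
    have h3 : 1 / A < θ' := (le_max_right _ _).trans_lt h1
    rw [div_lt_iff₀ hA0] at h3
    linarith
  have hθ'0 : 0 < θ' := by linarith
  obtain ⟨y₀, hmany⟩ := many g hg p₀ θ' hθ'0 h2
  have hlog : Tendsto (fun H : ℕ => Real.log H) atTop atTop :=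
    Real.tendsto_log_atTop.comp tendsto_natCast_atTop_atTop
  have hL : Tendsto (fun H : ℕ => Real.log H ^ A) atTop atTop :=
    (tendsto_rpow_atTop hA0).comp hlog
  have hy : Tendsto (fun H : ℕ => ⌊Real.log H ^ A⌋₊) atTop atTop :=
    tendsto_nat_floor_atTop.comp hL
  have e1 : ∀ᶠ H : ℕ in atTop, y₀ ≤ ⌊Real.log H ^ A⌋₊ := hy.eventually_ge_atTop _
  have e2 : ∀ᶠ H : ℕ in atTop, 16 ≤ ((⌊Real.log H ^ A⌋₊ : ℕ) : ℝ) ^ (θ' - θ) :=
    ((tendsto_rpow_atTop (by linarith)).comp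
      (tendsto_natCast_atTop_atTop.comp hy)).eventually_ge_atTop _
  have e3 : ∀ᶠ H : ℕ in atTop, 4 * K ≤ Real.log H ^ (A * θ' - 1) :=
    ((tendsto_rpow_atTop (by linarith)).comp hlog).eventually_ge_atTop _
  have e4 : ∀ᶠ H : ℕ in atTop, 2 ≤ Real.log H ^ A := hL.eventually_ge_atTop _
  have e5 : ∀ᶠ H : ℕ in atTop, 1 ≤ Real.log H := hlog.eventually_ge_atTop _
  obtain ⟨H₀, hH₀⟩ := eventually_atTop.1 (e1.and (e2.and (e3.and (e4.and e5))))
  refine ⟨H₀, fun H hH => ?_⟩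
  obtain ⟨f1, f2, f3, f4, f5⟩ := hH₀ H hH
  set y : ℕ := ⌊Real.log H ^ A⌋₊ with hyd
  refine le_trans ?_ (hmany y f1)
  have hyl : Real.log H ^ A / 2 ≤ (y : ℝ) := by
    have := Nat.lt_floor_add_one (Real.log H ^ A)
    rw [← hyd] at this
    linarith
  have hlog0 : 0 < Real.log H := by linarith
  have hy0 : (0 : ℝ) < y := by linarith
  have g1 : (y : ℝ) ^ θ' = (y : ℝ) ^ θ * (y : ℝ) ^ (θ' - θ) := by
    rw [← Real.rpow_add hy0]; congr 1; ring
  have hθpos : 0 < (y : ℝ) ^ θ := by positivity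
  have g2 : 16 * (y : ℝ) ^ θ ≤ (y : ℝ) ^ θ' := by
    rw [g1]; nlinarith
  have g3 : (Real.log H ^ A / 2) ^ θ' ≤ (y : ℝ) ^ θ' :=
    Real.rpow_le_rpow (by positivity) hyl hθ'0.le
  have g4 : Real.log H ^ (A * θ') / 2 ≤ (Real.log H ^ A / 2) ^ θ' := by
    rw [Real.div_rpow (by positivity) (by norm_num), ← Real.rpow_mul hlog0.le]
    apply div_le_div_of_nonneg_left (by positivity) (by positivity)
    calc (2 : ℝ) ^ θ' ≤ 2 ^ (1 : ℝ) := Real.rpow_le_rpow_of_exponent_le (by norm_num) h2.le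
      _ = 2 := by norm_num
  have g5 : Real.log H ^ (A * θ') = Real.log H ^ (A * θ' - 1) * Real.log H := by
    nth_rewrite 3 [← Real.rpow_one (Real.log H)]
    rw [← Real.rpow_add hlog0]
    congr 1; ring
  have g6 : 4 * K * Real.log H ≤ Real.log H ^ (A * θ') := by
    rw [g5]; exact mul_le_mul_of_nonneg_right f3 hlog0.le
  linarith

end Pool.Agent.U307.SK
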