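import Mathlib
import Pool.Agent.U307.SK.D
import Pool.Agent.U307.SK.E

set_option autoImplicit false

/-!
# Random targets for polynomial expressions in recurrence sequences
-/

namespace Pool.Agent.U307.SK

open Filter Topology Polynomial Finset
open Pool.Agent.H884R2.Sko Pool.Agent.H684R3.Smo
open scoped Classical

theorem union_bound {κ : Type} [Fintype κ] {α : Type} (S : Finset α)
    (Bad : α → Prop) [DecidablePred Bad] (E : (κ → ℤ) → Finset α) (N : ℕ) (B : ℝ)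
    (hE : ∀ z : κ → ℤ, (∀ i, |z i| ≤ (N : ℤ)) → ((E z).card : ℝ) ≤ B)
    (hcov : ∀ x ∈ S, Bad x → ∃ z : κ → ℤ, (∀ i, |z i| ≤ (N : ℤ)) ∧ x ∈ E z) :
    ((S.filter Bad).card : ℝ) ≤ (2 * (N : ℝ) + 1) ^ (Fintype.card κ) * B := by
  set Z : Finset (κ → ℤ) := Fintype.piFinset fun _ => Icc (-(N : ℤ)) N with hZ
  have hmem : ∀ z : κ → ℤ, z ∈ Z ↔ ∀ i, |z i| ≤ (N : ℤ) := by
    intro z
    rw [hZ, Fintype.mem_piFinset]
    refine forall_congr' fun i => ?_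
    rw [mem_Icc, abs_le]
  have hcard : ((Z.card : ℕ) : ℝ) = (2 * (N : ℝ) + 1) ^ (Fintype.card κ) := by
    rw [hZ, Fintype.card_piFinset, Finset.prod_const, Int.card_Icc, Finset.card_univ]
    have : ((N : ℤ) + 1 - -(N : ℤ)).toNat = 2 * N + 1 := by omega
    rw [this]
    push_cast
    rfl
  have hsub : S.filter Bad ⊆ Z.biUnion E := by
    intro x hx
    rw [mem_filter] at hx
    obtain ⟨z, hz, hxz⟩ := hcov x hx.1 hx.2
    rw [mem_biUnion]
    exact ⟨z, (hmem z).2 hz, hxz⟩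
  calc ((S.filter Bad).card : ℝ) ≤ ((Z.biUnion E).card : ℝ) := by
        exact_mod_cast Finset.card_le_card hsub
    _ ≤ ∑ z ∈ Z, ((E z).card : ℝ) := by exact_mod_cast Finset.card_biUnion_le
    _ ≤ ∑ _z ∈ Z, B := Finset.sum_le_sum fun z hz => hE z ((hmem z).1 hz)
    _ = (2 * (N : ℝ) + 1) ^ (Fintype.card κ) * B := by
        rw [Finset.sum_const, nsmul_eq_mul, hcard]

theorem smallbox (K : ℕ) (ε : ℝ) (hε : 0 < ε) : ∃ η : ℝ, 0 < η ∧ η ≤ 1 ∧ ∃ H₀ : ℕ,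
    ∀ H : ℕ, H₀ ≤ H → (2 * (H : ℝ) ^ η + 1) ^ K ≤ (H : ℝ) ^ ε := by
  obtain ⟨η, hη⟩ : ∃ η : ℝ, η = min 1 (ε / (2 * (K + 1))) := ⟨_, rfl⟩
  have hη0 : 0 < η := by rw [hη]; exact lt_min (by norm_num) (by positivity)
  have hη1 : η ≤ 1 := by rw [hη]; exact min_le_left _ _
  have hηK : η * K ≤ ε / 2 := by
    have h1 : η ≤ ε / (2 * (K + 1)) := by rw [hη]; exact min_le_right _ _
    have h2 : (0 : ℝ) ≤ K := by positivity
    calc η * K ≤ ε / (2 * (K + 1)) * (K + 1) := by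
          apply mul_le_mul h1 (by linarith) h2 (by positivity)
      _ = ε / 2 := by field_simp
  have hev : ∀ᶠ H : ℕ in atTop, (3 : ℝ) ^ K ≤ (H : ℝ) ^ (ε / 2) :=
    ((tendsto_rpow_atTop (by positivity)).comp
      tendsto_natCast_atTop_atTop).eventually_ge_atTop _
  obtain ⟨H₀, hH₀⟩ := eventually_atTop.1 hev
  refine ⟨η, hη0, hη1, max 1 H₀, fun H hH => ?_⟩
  have hH1 : 1 ≤ H := (le_max_left _ _).trans hH
  have hHr : (1 : ℝ) ≤ H := by exact_mod_cast hH1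
  have h1 : (1 : ℝ) ≤ (H : ℝ) ^ η := Real.one_le_rpow hHr hη0.le
  calc (2 * (H : ℝ) ^ η + 1) ^ K ≤ (3 * (H : ℝ) ^ η) ^ K :=
        pow_le_pow_left₀ (by positivity) (by linarith) _
    _ = 3 ^ K * (H : ℝ) ^ (η * K) := by
        rw [mul_pow, Real.rpow_mul_natCast (by positivity)]
    _ ≤ (H : ℝ) ^ (ε / 2) * (H : ℝ) ^ (ε / 2) := by
        apply mul_le_mul (hH₀ H ((le_max_right _ _).trans hH))
          (Real.rpow_le_rpow_of_exponent_le hHr hηK) (by positivity) (by positivity)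
    _ = (H : ℝ) ^ ε := by
        rw [← Real.rpow_add (by linarith)]; congr 1; ring

/-- the polynomial `T ↦ m (T b) ^ r + ∑_e w_e ∏ x_q ^ e_q (T b) ^ e'` -/
noncomputable def Qp {κ : Type} [Fintype κ] {r : ℕ} (m : ℤ)
    (w : (κ → Fin (r + 1)) × Fin r → ℤ) (x : κ → ℤ) (b : ℤ) : ℤ[X] :=
  C (m * b ^ r) * X ^ r +
    ∑ e, C (w e * (∏ q, x q ^ (e.1 q : ℕ)) * b ^ (e.2 : ℕ)) * X ^ (e.2 : ℕ)

section
variable {κ : Type} [Fintype κ] {r : ℕ} (m : ℤ)
    (w : (κ → Fin (r + 1)) × Fin r → ℤ) (x : κ → ℤ) (b : ℤ)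

theorem Qp_eval (t : ℤ) : (Qp m w x b).eval t = m * (t * b) ^ r +
    ∑ e, w e * ((∏ q, x q ^ (e.1 q : ℕ)) * (t * b) ^ (e.2 : ℕ)) := by
  unfold Qp
  rw [eval_add, eval_mul, eval_C, eval_pow, eval_X, eval_finsetSum]
  congr 1
  · ring
  · refine Finset.sum_congr rfl fun e _ => ?_
    rw [eval_mul, eval_C, eval_pow, eval_X]
    ring

theorem Qp_natDegree : (Qp m w x b).natDegree ≤ r := by
  unfold Qp
  refine (natDegree_add_le _ _).trans (max_le (natDegree_C_mul_X_pow_le _ _) ?_)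
  refine natDegree_sum_le_of_forall_le _ _ fun e _ => ?_
  exact (natDegree_C_mul_X_pow_le _ _).trans e.2.2.le

theorem Qp_coeff : (Qp m w x b).coeff r = m * b ^ r := by
  unfold Qp
  rw [coeff_add, coeff_C_mul_X_pow, if_pos rfl, finsetSum_coeff, Finset.sum_eq_zero, add_zero]
  intro e _
  rw [coeff_C_mul_X_pow, if_neg]
  exact e.2.2.ne'

theorem Qp_map {R : Type} [CommRing R] (φ : ℤ →+* R) (x' : κ → ℤ) (b' : ℤ)
    (hx : ∀ q, φ (x q) = φ (x' q)) (hb : φ b = φ b') :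
    (Qp m w x b).map φ = (Qp m w x' b').map φ := by
  unfold Qp
  simp only [Polynomial.map_add, Polynomial.map_mul, map_C, Polynomial.map_pow, map_X,
    Polynomial.map_sum, Polynomial.map_prod, map_mul, map_pow, map_prod, hx, hb]

end

end Pool.Agent.U307.SK
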