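import Mathlib
import Pool.Agent.H684R3.Smo.Stmts

set_option autoImplicit false

/-!
# Directions which are good modulo many primes, and the decomposition of a box into lines
-/

namespace Pool.Agent.U307.SK

open Finset Pool.Agent.H684R3.Smo
open scoped Classical

theorem pow_bound (D : ℕ) (x : ℝ) (hx : 0 ≤ x) (h : 4 * (D * x) ≤ 1) :
    2 * (1 + x) ^ D ≤ 3 := by
  have h1 : (1 + x) ^ D ≤ Real.exp (D * x) := by
    calc (1 + x) ^ D ≤ (Real.exp x) ^ D := by
          apply pow_le_pow_left₀ (by linarith)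
          linarith [Real.add_one_le_exp x]
      _ = Real.exp (D * x) := by rw [← Real.exp_nat_mul]
  have h2 : Real.exp (D * x) ≤ Real.exp (1 / 4) := Real.exp_le_exp.2 (by linarith)
  have h3 : Real.exp (1 / 4 : ℝ) ≤ 4 / 3 := by
    have h4 : (1 : ℝ) - 1 / 4 ≤ Real.exp (-(1 / 4)) := Real.one_sub_le_exp_neg _
    rw [Real.exp_neg] at h4
    have h5 : 0 < Real.exp (1 / 4 : ℝ) := Real.exp_pos _
    rw [le_inv_comm₀ (by norm_num) h5] at h4
    calc Real.exp (1 / 4 : ℝ) ≤ (1 - 1 / 4)⁻¹ := h4
      _ = 4 / 3 := by norm_num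
  linarith

variable {ι : Type} [Fintype ι]

/-- the number of the vectors in `[1, M] ^ ι` whose reduction modulo `p` lies in `B` -/
theorem card_class (p M : ℕ) (hp : 0 < p) (B : Finset (ι → ZMod p)) :
    ((Fintype.piFinset (fun _ : ι => Icc (1 : ℤ) M)).filter
      (fun w => (fun i => (w i : ZMod p)) ∈ B)).card * p ^ Fintype.card ι ≤
      B.card * (M + p) ^ Fintype.card ι := by
  have : NeZero p := ⟨hp.ne'⟩
  have h1 : ((Fintype.piFinset (fun _ : ι => Icc (1 : ℤ) M)).filter
      (fun w => (fun i => (w i : ZMod p)) ∈ B)).card ≤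
      (B ×ˢ Fintype.piFinset (fun _ : ι => Icc (0 : ℤ) (M / p : ℕ))).card := by
    apply Finset.card_le_card_of_injOn
      (fun w => ((fun i => (w i : ZMod p)), fun i => w i / (p : ℤ)))
    · intro w hw
      rw [Finset.mem_coe, Finset.mem_filter, Fintype.mem_piFinset] at hw
      rw [Finset.mem_coe, Finset.mem_product, Fintype.mem_piFinset]
      refine ⟨hw.2, fun i => ?_⟩
      have h2 := Finset.mem_Icc.1 (hw.1 i)
      rw [Finset.mem_Icc]
      constructor
      · exact Int.ediv_nonneg (by linarith [h2.1]) (by positivity)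
      · push_cast
        exact Int.ediv_le_ediv (by exact_mod_cast hp) h2.2
    · intro w _ w' _ h
      simp only [Prod.mk.injEq] at h
      funext i
      have e1 := congrFun h.1 i
      have e2 := congrFun h.2 i
      rw [ZMod.intCast_eq_intCast_iff] at e1
      rw [← Int.emod_add_mul_ediv (w i) p, ← Int.emod_add_mul_ediv (w' i) p, e2]
      congr 1
  have h2 : (Fintype.piFinset (fun _ : ι => Icc (0 : ℤ) (M / p : ℕ))).card =
      (M / p + 1) ^ Fintype.card ι := by
    rw [Fintype.card_piFinset, Finset.prod_const, Finset.card_univ, Int.card_Icc]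
    congr 1
  rw [Finset.card_product, h2] at h1
  calc _ ≤ B.card * (M / p + 1) ^ Fintype.card ι * p ^ Fintype.card ι :=
        Nat.mul_le_mul_right _ h1
    _ = B.card * ((M / p + 1) * p) ^ Fintype.card ι := by rw [mul_assoc, mul_pow]
    _ ≤ B.card * (M + p) ^ Fintype.card ι := by
        apply Nat.mul_le_mul_left
        apply Nat.pow_le_pow_left
        rw [add_mul, one_mul]
        exact Nat.add_le_add_right (Nat.div_mul_le_self _ _) _

/-- A small integer vector which is good modulo a quarter of the primes. -/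
theorem direction (y : ℕ) (hι : 1 ≤ Fintype.card ι) (P : Finset ℕ)
    (hP : ∀ p ∈ P, 0 < p ∧ p ≤ y) (Bad : (p : ℕ) → Finset (ι → ZMod p))
    (hBad : ∀ p ∈ P, 2 * (Bad p).card ≤ p ^ Fintype.card ι) (hy : 1 ≤ y) :
    ∃ w : ι → ℤ, (∀ i, 1 ≤ w i ∧ w i ≤ ((4 * Fintype.card ι * y : ℕ) : ℤ)) ∧
      P.card ≤ 4 * (P.filter (fun p => (fun i => (w i : ZMod p)) ∉ Bad p)).card := by
  set D := Fintype.card ι with hD
  set M := 4 * D * y with hM
  set W : Finset (ι → ℤ) := Fintype.piFinset (fun _ : ι => Icc (1 : ℤ) M) with hW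
  have hWc : W.card = M ^ D := by
    rw [hW, Fintype.card_piFinset, Finset.prod_const, Finset.card_univ, Int.card_Icc]
    congr 1
    omega
  have hM1 : 1 ≤ M := by
    rw [hM]
    exact Nat.mul_pos (by omega) hy
  have key : ∀ p ∈ P, 4 * (W.filter (fun w => (fun i => (w i : ZMod p)) ∈ Bad p)).card ≤
      3 * W.card := by
    intro p hp
    obtain ⟨hp0, hpy⟩ := hP p hp
    have h1 := card_class p M hp0 (Bad p)
    rw [← hW, ← hD] at h1
    have h2 := hBad p hp
    set N := (W.filter (fun w => (fun i => (w i : ZMod p)) ∈ Bad p)).card with hN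
    have hp0' : (0 : ℝ) < p := by exact_mod_cast hp0
    have hM0 : (0 : ℝ) < M := by exact_mod_cast hM1
    have h3 : (N : ℝ) * (p : ℝ) ^ D ≤ ((Bad p).card : ℝ) * ((M : ℝ) + p) ^ D := by
      exact_mod_cast h1
    have h4 : 2 * ((Bad p).card : ℝ) ≤ (p : ℝ) ^ D := by exact_mod_cast h2
    have h5 : ((M : ℝ) + p) ^ D = (M : ℝ) ^ D * (1 + p / M) ^ D := by
      rw [← mul_pow]; congr 1; field_simp
    have h6 : 2 * (1 + (p : ℝ) / M) ^ D ≤ 3 := by
      apply pow_bound _ _ (by positivity)
      rw [← mul_div_assoc, ← mul_div_assoc, div_le_one hM0, hM]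
      push_cast
      have : (p : ℝ) ≤ y := by exact_mod_cast hpy
      have hD0 : (0 : ℝ) ≤ D := by positivity
      nlinarith
    have h7 : (0 : ℝ) < (p : ℝ) ^ D := by positivity
    have h8 : 4 * (N : ℝ) * (p : ℝ) ^ D ≤ 3 * (M : ℝ) ^ D * (p : ℝ) ^ D := by
      have h9 : (0 : ℝ) ≤ (M : ℝ) ^ D := by positivity
      have h10 : (0 : ℝ) ≤ (1 + (p : ℝ) / M) ^ D := by positivity
      calc 4 * (N : ℝ) * (p : ℝ) ^ D = 4 * ((N : ℝ) * (p : ℝ) ^ D) := by ring
        _ ≤ 4 * (((Bad p).card : ℝ) * ((M : ℝ) + p) ^ D) := by linarith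
        _ = 2 * ((Bad p).card : ℝ) * ((M : ℝ) ^ D * (2 * (1 + p / M) ^ D)) := by rw [h5]; ring
        _ ≤ (p : ℝ) ^ D * ((M : ℝ) ^ D * 3) := by
            apply mul_le_mul h4 (mul_le_mul_of_nonneg_left h6 h9) (by positivity) h7.le
        _ = 3 * (M : ℝ) ^ D * (p : ℝ) ^ D := by ring
    have h11 : 4 * (N : ℝ) ≤ 3 * (M : ℝ) ^ D := le_of_mul_le_mul_right h8 h7
    rw [hWc]
    exact_mod_cast h11
  -- averaging
  by_contra hcon
  push Not at hcon
  have h1 : ∀ w ∈ W, 3 * P.card < 4 * (P.filter (fun p => (fun i => (w i : ZMod p)) ∈ Bad p)).card := by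
    intro w hw
    rw [hW, Fintype.mem_piFinset] at hw
    have h2 := hcon w (fun i => Finset.mem_Icc.1 (hw i))
    have h3 := Finset.card_filter_add_card_filter_not (s := P)
      (fun p => (fun i => (w i : ZMod p)) ∈ Bad p)
    omega
  have hWne : W.Nonempty := by
    rw [← Finset.card_pos, hWc]
    positivity
  have h2 : ∑ w ∈ W, 3 * P.card <
      ∑ w ∈ W, 4 * (P.filter (fun p => (fun i => (w i : ZMod p)) ∈ Bad p)).card :=
    Finset.sum_lt_sum_of_nonempty hWne h1
  have h3 : ∑ w ∈ W, (P.filter (fun p => (fun i => (w i : ZMod p)) ∈ Bad p)).card =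
      ∑ p ∈ P, (W.filter (fun w => (fun i => (w i : ZMod p)) ∈ Bad p)).card := by
    simp only [Finset.card_filter]
    exact Finset.sum_comm
  rw [Finset.sum_const, smul_eq_mul, ← Finset.mul_sum, h3, Finset.mul_sum] at h2
  have h4 : ∑ p ∈ P, 4 * (W.filter (fun w => (fun i => (w i : ZMod p)) ∈ Bad p)).card ≤
      ∑ p ∈ P, 3 * W.card := Finset.sum_le_sum key
  rw [Finset.sum_const, smul_eq_mul] at h4
  have h5 : W.card * (3 * P.card) = P.card * (3 * W.card) := by ring
  omega

/-- A box is the union of few segments in the direction `w`. -/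
theorem lines [DecidableEq ι] (H M : ℕ) (hι : 1 ≤ Fintype.card ι) (b w : ι → ℤ)
    (hw : ∀ i, 1 ≤ w i ∧ w i ≤ (M : ℤ)) (E : (ι → ℤ) → Prop) [DecidablePred E] (B : ℝ)
    (hB0 : 0 ≤ B)
    (hB : ∀ v : ι → ℤ, (((Icc (0 : ℤ) (2 * H)).filter
      (fun s => E (fun i => v i + s * w i))).card : ℝ) ≤ B) :
    (((bx b H).filter E).card : ℝ) ≤
      (Fintype.card ι * M : ℝ) * (2 * (H : ℝ) + 1) ^ (Fintype.card ι - 1) * B := by
  have hne : Nonempty ι := Fintype.card_pos_iff.1 hι
  set St : Finset (ι → ℤ) := (univ : Finset ι).biUnion (fun i => Fintype.piFinset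
    (Function.update (fun j => Icc (b j - H) (b j + H)) i (Ico (b i - H) (b i - H + w i)))) with hSt
  have hStc : St.card ≤ Fintype.card ι * (M * (2 * H + 1) ^ (Fintype.card ι - 1)) := by
    refine (Finset.card_biUnion_le_card_mul _ _ _ fun i _ => ?_).trans (by rw [Finset.card_univ])
    rw [Fintype.card_piFinset]
    have e : (fun j => (Function.update (fun j => Icc (b j - H) (b j + H)) i
        (Ico (b i - H) (b i - H + w i)) j).card) =
        Function.update (fun _ => 2 * H + 1) i (w i).toNat := by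
      funext j
      by_cases hj : j = i
      · subst hj
        rw [Function.update_self, Function.update_self, Int.card_Ico]
        congr 1
        ring
      · rw [Function.update_of_ne hj, Function.update_of_ne hj, Int.card_Icc]
        have := (hw i).1
        omega
    rw [e, Finset.prod_update_of_mem (mem_univ i), Finset.prod_const, Finset.card_sdiff_of_subset
      (by simp), Finset.card_univ, Finset.card_singleton]
    apply Nat.mul_le_mul_right
    have := (hw i).2
    omega
  have hsub : (bx b H).filter E ⊆ St.biUnion (fun v =>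
      ((Icc (0 : ℤ) (2 * H)).filter (fun s => E (fun i => v i + s * w i))).image
        (fun s i => v i + s * w i)) := by
    intro v hv
    rw [Finset.mem_filter] at hv
    obtain ⟨hv1, hv2⟩ := hv
    unfold bx at hv1
    rw [Fintype.mem_piFinset] at hv1
    have hv3 : ∀ i, b i - H ≤ v i ∧ v i ≤ b i + H := fun i => Finset.mem_Icc.1 (hv1 i)
    obtain ⟨i₀, _, hi₀⟩ := Finset.exists_min_image (univ : Finset ι)
      (fun i => (v i - (b i - H)) / w i) univ_nonempty
    set s : ℤ := (v i₀ - (b i₀ - H)) / w i₀ with hs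
    have hw0 : ∀ i, 0 < w i := fun i => by linarith [(hw i).1]
    have hs0 : 0 ≤ s := Int.ediv_nonneg (by linarith [(hv3 i₀).1]) (hw0 i₀).le
    have hsle : ∀ i, s * w i ≤ v i - (b i - H) := by
      intro i
      have h1 := hi₀ i (mem_univ i)
      rw [Int.le_ediv_iff_mul_le (hw0 i)] at h1
      exact h1
    have hslt : v i₀ - (b i₀ - H) < (s + 1) * w i₀ := by
      have := Int.lt_ediv_add_one_mul_self (v i₀ - (b i₀ - H)) (hw0 i₀)
      exact this
    have hs2 : s ≤ 2 * H := by
      have h1 := hsle i₀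
      have h2 := (hv3 i₀).2
      have h3 := (hw i₀).1
      nlinarith
    rw [Finset.mem_biUnion]
    refine ⟨fun i => v i - s * w i, ?_, ?_⟩
    · rw [hSt, Finset.mem_biUnion]
      refine ⟨i₀, mem_univ _, ?_⟩
      rw [Fintype.mem_piFinset]
      intro j
      by_cases hj : j = i₀
      · subst hj
        rw [Function.update_self, Finset.mem_Ico]
        constructor
        · linarith [hsle j]
        · linarith
      · rw [Function.update_of_ne hj, Finset.mem_Icc]
        constructor
        · linarith [hsle j]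
        · have := mul_nonneg hs0 (hw0 j).le
          linarith [(hv3 j).2]
    · rw [Finset.mem_image]
      refine ⟨s, ?_, ?_⟩
      · rw [Finset.mem_filter, Finset.mem_Icc]
        refine ⟨⟨hs0, hs2⟩, ?_⟩
        have e : (fun i => v i - s * w i + s * w i) = v := by
          funext i; ring
        rw [e]
        exact hv2
      · funext i
        ring
  have h1 : (((bx b H).filter E).card : ℝ) ≤ ∑ v ∈ St, B := by
    have hcb := (Finset.card_le_card hsub).trans Finset.card_biUnion_le
    refine (Nat.cast_le.2 hcb).trans ?_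
    rw [Nat.cast_sum]
    refine Finset.sum_le_sum fun v _ => ?_
    exact (Nat.cast_le.2 Finset.card_image_le).trans (hB v)
  rw [Finset.sum_const, nsmul_eq_mul] at h1
  refine h1.trans ?_
  apply mul_le_mul_of_nonneg_right _ hB0
  have h2 : (St.card : ℝ) ≤ ((Fintype.card ι * (M * (2 * H + 1) ^ (Fintype.card ι - 1)) : ℕ) : ℝ) := by
    exact_mod_cast hStc
  refine h2.trans (le_of_eq ?_)
  push_cast
  ring

end Pool.Agent.U307.SK
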