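import Mathlib
import Pool.Agent.TH838.SK.Count

set_option autoImplicit false

/-!
# The restriction of a polynomial to a line, and bad directions modulo a prime
-/

namespace Pool.Agent.U307.SK

open Polynomial Finset
open Pool.Agent.H884R2.Sko Pool.Agent.TH838.SK

section line

variable {R : Type} [CommRing R] {ι : Type} [Fintype ι] [DecidableEq ι] {r : ℕ}

/-- the polynomial `w` on the line `x + y X` -/
noncomputable def Lp (w : (ι → Fin (r + 1)) → R) (x y : ι → R) : R[X] :=
  ∑ e, C (w e) * ∏ i, (C (x i) + C (y i) * X) ^ (e i : ℕ)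

theorem Lp_eval (w : (ι → Fin (r + 1)) → R) (x y : ι → R) (s : R) :
    (Lp w x y).eval s = ev1 w (fun i => x i + s * y i) := by
  unfold Lp ev1
  rw [eval_finsetSum]
  refine Finset.sum_congr rfl fun e _ => ?_
  rw [eval_mul, eval_C, eval_prod]
  congr 1
  refine Finset.prod_congr rfl fun i _ => ?_
  rw [eval_pow, eval_add, eval_mul, eval_C, eval_C, eval_X, mul_comm (y i) s]

theorem Lp_map {S : Type} [CommRing S] (φ : R →+* S) (w : (ι → Fin (r + 1)) → R) (x y : ι → R) :
    (Lp w x y).map φ = Lp (fun e => φ (w e)) (fun i => φ (x i)) (fun i => φ (y i)) := by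
  unfold Lp
  simp only [Polynomial.map_sum, Polynomial.map_mul, map_C, Polynomial.map_prod,
    Polynomial.map_pow, Polynomial.map_add, map_X]

theorem lin_natDegree (a b : R) : (C a + C b * X : R[X]).natDegree ≤ 1 := by
  refine (natDegree_add_le _ _).trans (max_le (by simp) ?_)
  exact (natDegree_C_mul_le _ _).trans natDegree_X_le

theorem prod_natDegree (x y : ι → R) (e : ι → Fin (r + 1)) (S : Finset ι) :
    (∏ i ∈ S, (C (x i) + C (y i) * X : R[X]) ^ (e i : ℕ)).natDegree ≤ ∑ i ∈ S, (e i : ℕ) := by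
  refine (natDegree_prod_le _ _).trans (Finset.sum_le_sum fun i _ => ?_)
  refine natDegree_pow_le.trans ?_
  calc (e i : ℕ) * (C (x i) + C (y i) * X : R[X]).natDegree ≤ (e i : ℕ) * 1 :=
        Nat.mul_le_mul_left _ (lin_natDegree _ _)
    _ = (e i : ℕ) := mul_one _

theorem prod_coeff (x y : ι → R) (e : ι → Fin (r + 1)) (S : Finset ι) :
    (∏ i ∈ S, (C (x i) + C (y i) * X : R[X]) ^ (e i : ℕ)).coeff (∑ i ∈ S, (e i : ℕ)) =
      ∏ i ∈ S, y i ^ (e i : ℕ) := by
  induction S using Finset.induction_on with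
  | empty => simp
  | insert i S hi ih =>
    rw [Finset.prod_insert hi, Finset.sum_insert hi, Finset.prod_insert hi]
    have h1 : ((C (x i) + C (y i) * X : R[X]) ^ (e i : ℕ)).natDegree ≤ (e i : ℕ) := by
      refine natDegree_pow_le.trans ?_
      calc (e i : ℕ) * (C (x i) + C (y i) * X : R[X]).natDegree ≤ (e i : ℕ) * 1 :=
            Nat.mul_le_mul_left _ (lin_natDegree _ _)
        _ = (e i : ℕ) := mul_one _
    rw [coeff_mul_add_eq_of_natDegree_le h1 (prod_natDegree x y e S), ih]
    congr 1
    have h2 := coeff_pow_of_natDegree_le (p := (C (x i) + C (y i) * X : R[X])) (n := 1)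
      (m := (e i : ℕ)) (lin_natDegree _ _)
    rw [mul_one] at h2
    rw [h2]
    congr 1
    simp

/-- the top degree part -/
def top (D : ℕ) (w : (ι → Fin (r + 1)) → R) : (ι → Fin (r + 1)) → R :=
  fun e => if ∑ i, (e i : ℕ) = D then w e else 0

theorem Lp_natDegree (w : (ι → Fin (r + 1)) → R) (x y : ι → R) :
    (Lp w x y).natDegree ≤ Fintype.card ι * r := by
  unfold Lp
  refine natDegree_sum_le_of_forall_le _ _ fun e _ => ?_
  refine (natDegree_C_mul_le _ _).trans ((prod_natDegree x y e _).trans ?_)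
  calc ∑ i, (e i : ℕ) ≤ ∑ _i : ι, r := Finset.sum_le_sum fun i _ => by
        have := (e i).2
        omega
    _ = Fintype.card ι * r := by simp

theorem Lp_coeff (w : (ι → Fin (r + 1)) → R) (x y : ι → R) (D : ℕ)
    (hD : ∀ e, w e ≠ 0 → ∑ i, (e i : ℕ) ≤ D) :
    (Lp w x y).coeff D = ev1 (top D w) y := by
  unfold Lp ev1 top
  rw [finsetSum_coeff]
  refine Finset.sum_congr rfl fun e _ => ?_
  rw [coeff_C_mul]
  by_cases hw : w e = 0
  · simp [hw]
  · rcases (hD e hw).lt_or_eq with h | h
    · rw [if_neg h.ne, zero_mul, coeff_eq_zero_of_natDegree_lt, mul_zero]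
      exact (prod_natDegree x y e _).trans_lt h
    · rw [if_pos h, ← h, prod_coeff]

end line

section state

variable {R : Type} [CommRing R] {s d : ℕ}

/-- the states at time `n` of `s` sequences with the same recurrence -/
def stt (c : Fin d → R) (a : Fin s × Fin d → R) (n : ℕ) : Fin s × Fin d → R :=
  fun q => seq c (fun i => a (q.1, i)) (n + q.2)

theorem stt_map {S : Type} [CommRing S] (φ : R →+* S) (c : Fin d → R) (a : Fin s × Fin d → R)
    (n : ℕ) (q : Fin s × Fin d) :
    φ (stt c a n q) = stt (fun i => φ (c i)) (fun q => φ (a q)) n q :=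
  Pool.Agent.H884R2.Sko.map_seq φ _ _ _

theorem seq_lin (c x y : Fin d → R) (t : R) (n : ℕ) :
    seq c (fun i => x i + t * y i) n = seq c x n + t * seq c y n := by
  symm
  apply eq_seq c (fun i => x i + t * y i) (fun n => seq c x n + t * seq c y n)
  · intro n
    rw [seq_sol, seq_sol, Finset.mul_sum, ← Finset.sum_add_distrib]
    exact Finset.sum_congr rfl fun i _ => by ring
  · intro i
    rw [seq_init, seq_init]

theorem stt_lin (c : Fin d → R) (x y : Fin s × Fin d → R) (t : R) (n : ℕ) :
    stt c (fun q => x q + t * y q) n = fun q => stt c x n q + t * stt c y n q := by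
  funext q
  exact seq_lin c _ _ t _

theorem seq_per {c : Fin d → R} {T : ℕ} (hT : ∀ v n, seq c v (n + T) = seq c v n) (v : Fin d → R)
    (j n : ℕ) : seq c v (n + T * j) = seq c v n := by
  induction j with
  | zero => rfl
  | succ j ih => rw [Nat.mul_succ, ← add_assoc, hT, ih]

theorem stt_inj {c : Fin d → R} {T : ℕ} (hT0 : 0 < T) (hT : ∀ v n, seq c v (n + T) = seq c v n)
    (n : ℕ) : Function.Injective (fun a : Fin s × Fin d → R => stt c a n) := by
  intro a a' h
  simp only at h
  funext ⟨j, i⟩
  obtain ⟨m, hm⟩ : ∃ m, n + m = i + T * n := ⟨i + T * n - n, by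
    have : n ≤ T * n := Nat.le_mul_of_pos_left n hT0
    omega⟩
  have h1 : ∀ b : Fin s × Fin d → R, seq c (fun i => b (j, i)) (i + T * n) = b (j, i) := by
    intro b
    rw [seq_per hT, seq_init]
  have h2 : (fun i : Fin d => seq c (fun i => a (j, i)) (n + i)) =
      fun i : Fin d => seq c (fun i => a' (j, i)) (n + i) := by
    funext i
    exact congrFun h (j, i)
  rw [← h1 a, ← h1 a', ← hm, ← seq_add, ← seq_add, h2]

end state

open Classical in
/-- at most half of the directions are bad -/
theorem card_badDir (p : ℕ) [Fact p.Prime] {s d r : ℕ} (c : Fin d → ZMod p) (T k : ℕ)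
    (hkT : k * T = p - 1) (hT : ∀ v n, seq c v (n + T) = seq c v n)
    (hk : 2 * (Fintype.card (Fin s × Fin d) * r) ≤ k)
    (g : (Fin s × Fin d → Fin (r + 1)) → ZMod p) (hg : g ≠ 0) :
    2 * ((univ : Finset (Fin s × Fin d → ZMod p)).filter
      (fun b => ∃ n, ev1 g (stt c b n) = 0)).card ≤ p ^ Fintype.card (Fin s × Fin d) := by
  have hp : p.Prime := Fact.out
  have hT0 : 0 < T := by
    rcases Nat.eq_zero_or_pos T with h | h
    · rw [h, mul_zero] at hkT
      have := hp.two_le
      omega
    · exact h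
  set D := Fintype.card (Fin s × Fin d) with hD
  have h1 := card_zero g hg
  rw [ZMod.card, ← hD] at h1
  set Z := ((univ : Finset (Fin s × Fin d → ZMod p)).filter (fun y => ev1 g y = 0)).card with hZ
  have hsub : ((univ : Finset (Fin s × Fin d → ZMod p)).filter
      (fun b => ∃ n, ev1 g (stt c b n) = 0)) ⊆
      (range T).biUnion (fun n => univ.filter (fun b => ev1 g (stt c b n) = 0)) := by
    intro b hb
    rw [Finset.mem_filter] at hb
    obtain ⟨_, n, hn⟩ := hb
    rw [Finset.mem_biUnion]
    refine ⟨n % T, Finset.mem_range.2 (Nat.mod_lt _ hT0), ?_⟩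
    rw [Finset.mem_filter]
    refine ⟨mem_univ _, ?_⟩
    have : stt c b (n % T) = stt c b n := by
      funext q
      unfold stt
      have h2 := seq_per hT (fun i => b (q.1, i)) (n / T) (n % T + q.2)
      rw [show n % T + (q.2 : ℕ) + T * (n / T) = n % T + T * (n / T) + q.2 by ring,
        Nat.mod_add_div] at h2
      exact h2.symm
    rw [this]
    exact hn
  have h3 : ((univ : Finset (Fin s × Fin d → ZMod p)).filter
      (fun b => ∃ n, ev1 g (stt c b n) = 0)).card ≤ T * Z := by
    refine (Finset.card_le_card hsub).trans (Finset.card_biUnion_le.trans ?_)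
    calc ∑ n ∈ range T, (univ.filter (fun b => ev1 g (stt c b n) = 0)).card ≤
        ∑ _n ∈ range T, Z := by
          refine Finset.sum_le_sum fun n _ => ?_
          apply Finset.card_le_card_of_injOn (fun b => stt c b n)
          · intro a ha
            rw [Finset.mem_coe, Finset.mem_filter] at ha ⊢
            exact ⟨mem_univ _, ha.2⟩
          · exact (stt_inj hT0 hT n).injOn
      _ = _ := by rw [Finset.sum_const, Finset.card_range, smul_eq_mul]
  have h4 : 2 * ((univ : Finset (Fin s × Fin d → ZMod p)).filter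
      (fun b => ∃ n, ev1 g (stt c b n) = 0)).card * p ≤ p ^ D * p := by
    calc 2 * ((univ : Finset (Fin s × Fin d → ZMod p)).filter
          (fun b => ∃ n, ev1 g (stt c b n) = 0)).card * p ≤ 2 * (T * Z) * p :=
          Nat.mul_le_mul_right _ (Nat.mul_le_mul_left _ h3)
      _ = 2 * T * (Z * p) := by ring
      _ ≤ 2 * T * (D * r * p ^ D) := Nat.mul_le_mul_left _ h1
      _ = (2 * (D * r)) * T * p ^ D := by ring
      _ ≤ k * T * p ^ D := Nat.mul_le_mul_right _ (Nat.mul_le_mul_right _ hk)
      _ = (p - 1) * p ^ D := by rw [hkT]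
      _ ≤ p * p ^ D := Nat.mul_le_mul_right _ (Nat.sub_le _ _)
      _ = p ^ D * p := mul_comm _ _
  exact Nat.le_of_mul_le_mul_right h4 hp.pos

end Pool.Agent.U307.SK
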