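import Mathlib
import Pool.Agent.U307.SK.F
import Pool.Agent.U307.SK.G
import Pool.Agent.U307.SK.K

set_option autoImplicit false

/-!
# Fixed recurrence, random initial values: one polynomial
-/

namespace Pool.Agent.U307.SK

open Filter Topology Polynomial Finset
open Pool.Agent.H884R2.Sko Pool.Agent.H684R3.Smo Pool.Agent.TH838.SK
open scoped Classical

theorem polylog_small (A ε K : ℝ) (hA : 1 < A) (hε : 0 < ε) : ∃ H₀ : ℕ, ∀ H : ℕ, H₀ ≤ H →
    K * Real.log H ^ A ≤ (H : ℝ) ^ ε := by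
  obtain ⟨H₁, h1⟩ := eventual A ε hA hε
  have hev : ∀ᶠ H : ℕ in atTop, K ≤ (H : ℝ) ^ (ε / 2) :=
    ((tendsto_rpow_atTop (by positivity)).comp
      tendsto_natCast_atTop_atTop).eventually_ge_atTop _
  obtain ⟨H₂, h2⟩ := eventually_atTop.1 hev
  refine ⟨max 1 (max H₁ H₂), fun H hH => ?_⟩
  have hH1 : 1 ≤ H := (le_max_left _ _).trans hH
  have hH2 := (le_max_right _ _).trans hH
  obtain ⟨g1, _, _, _, g5, _⟩ := h1 H ((le_max_left _ _).trans hH2)
  have g2 := h2 H ((le_max_right _ _).trans hH2)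
  have hHr : (0 : ℝ) < H := by exact_mod_cast hH1
  have g3 : 0 ≤ Real.log H ^ A := Real.rpow_nonneg (by linarith) _
  have g4 : Real.log H ^ A ≤ (H : ℝ) ^ (ε / 2) := by linarith
  calc K * Real.log H ^ A ≤ (H : ℝ) ^ (ε / 2) * (H : ℝ) ^ (ε / 2) :=
        mul_le_mul g2 g4 g3 (by positivity)
    _ = (H : ℝ) ^ ε := by rw [← Real.rpow_add hHr]; congr 1; ring

theorem one_poly {s r d : ℕ} (hs : 1 ≤ s) (hd : 1 ≤ d) (c : Fin d → ℤ) (g : ℤ[X]) (p₀ k : ℕ)
    (hk : k = 2 * (s * d * r + 1))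
    (hsplit : ∀ p : ℕ, p.Prime → p₀ ≤ p → (g.map (Int.castRingHom (ZMod p))).Splits →
      k ∣ p - 1 ∧ (∀ (v : Fin d → ZMod p) (n : ℕ),
        seq (fun i => (c i : ZMod p)) v (n + (p - 1) / k) = seq (fun i => (c i : ZMod p)) v n))
    (hg : g.Monic) (A ε : ℝ) (hA : 1 < A) (hε : 0 < ε) :
    ∃ H₀ : ℕ, ∀ H : ℕ, H₀ ≤ H →
      ∀ w : (Fin s × Fin d → Fin (r + 1)) → ℤ, w ≠ 0 → (∀ e, |(w e : ℝ)| ≤ H) →
      ∃ P ⊆ PP g p₀ ⌊Real.log H ^ A⌋₊, ∀ b : Fin s × Fin d → ℤ,
        (((bx b H).filter (fun a => ∀ p ∈ P, ∃ n, (p : ℤ) ∣ ev1 w (stt c a n))).card : ℝ) ≤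
          (2 * (H : ℝ) + 1) ^ (s * d - 1) * (H : ℝ) ^ (1 / 2 + 1 / (2 * A) + ε) := by
  obtain ⟨θ, hθ0, hθ1, H₁, hone⟩ := oneparam A (ε / 2) hA (by positivity)
  obtain ⟨H₂, hsup⟩ := supply g hg p₀ A hA θ hθ0 hθ1 16
  obtain ⟨H₃, hpoly⟩ := polylog_small A (ε / 2) (4 * (s * d : ℝ) ^ 2) hA (by positivity)
  obtain ⟨H₄, hev⟩ := eventual A 1 hA one_pos
  refine ⟨max 3 (max H₁ (max H₂ (max H₃ H₄))), fun H hH w hw hwX => ?_⟩
  have hH3 : 3 ≤ H := (le_max_left _ _).trans hH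
  have hH' := (le_max_right _ _).trans hH
  have hHH1 : H₁ ≤ H := (le_max_left _ _).trans hH'
  have hH'' := (le_max_right _ _).trans hH'
  have hHH2 : H₂ ≤ H := (le_max_left _ _).trans hH''
  have hH''' := (le_max_right _ _).trans hH''
  have hHH3 : H₃ ≤ H := (le_max_left _ _).trans hH'''
  have hHH4 : H₄ ≤ H := (le_max_right _ _).trans hH'''
  have hHr : (1 : ℝ) ≤ H := by
    have : (3 : ℝ) ≤ H := by exact_mod_cast hH3
    linarith
  have hlog : 0 ≤ Real.log H := Real.log_nonneg hHr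
  set Y : ℝ := Real.log H ^ A with hY
  have hY0 : 0 ≤ Y := Real.rpow_nonneg hlog _
  set y : ℕ := ⌊Y⌋₊ with hy
  have hy2 : 2 ≤ y := (hev H hHH4).2.2.2.1
  have hsupH := hsup H hHH2
  have hPP : ∀ p ∈ PP g p₀ y, p.Prime ∧ p ≤ y ∧ p₀ ≤ p ∧
      (g.map (Int.castRingHom (ZMod p))).Splits := by
    intro p hp
    unfold PP at hp
    rw [Finset.mem_filter, Finset.mem_range] at hp
    exact ⟨hp.2.1, by omega, hp.2.2.1, hp.2.2.2⟩
  have hcard : Fintype.card (Fin s × Fin d) = s * d := by simp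
  -- the top degree
  obtain ⟨e₁, he₁⟩ := Function.ne_iff.1 hw
  obtain ⟨e₀, he₀, hmax⟩ := Finset.exists_max_image (univ.filter (fun e => w e ≠ 0))
    (fun e : Fin s × Fin d → Fin (r + 1) => ∑ i, (e i : ℕ)) ⟨e₁, by
      rw [Finset.mem_filter]; exact ⟨mem_univ _, he₁⟩⟩
  rw [Finset.mem_filter] at he₀
  set Dg := ∑ i, (e₀ i : ℕ) with hDg
  have hmax' : ∀ e, w e ≠ 0 → ∑ i, (e i : ℕ) ≤ Dg := fun e he =>
    hmax e (by rw [Finset.mem_filter]; exact ⟨mem_univ _, he⟩)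
  -- the primes not dividing the top coefficient
  set P' : Finset ℕ := (PP g p₀ y).filter (fun p : ℕ => ¬ (p : ℤ) ∣ w e₀) with hP'
  have hP'c : 8 * (y : ℝ) ^ θ ≤ (P'.card : ℝ) := by
    have h1 := few (w e₀) he₀.2 (PP g p₀ y) (fun p hp => (hPP p hp).1) H (hwX e₀)
    have h3 : (1 / 2 : ℝ) ≤ Real.log 2 := by
      have := Real.log_two_gt_d9
      linarith
    have h4 := Finset.card_filter_add_card_filter_not (s := PP g p₀ y)
      (fun p : ℕ => (p : ℤ) ∣ w e₀)
    have h5 : (((PP g p₀ y).filter (fun p : ℕ => (p : ℤ) ∣ w e₀)).card : ℝ) + (P'.card : ℝ) =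
        ((PP g p₀ y).card : ℝ) := by exact_mod_cast h4
    have h6 : (0 : ℝ) ≤ (((PP g p₀ y).filter (fun p : ℕ => (p : ℤ) ∣ w e₀)).card : ℝ) := by
      positivity
    have h7 : (0 : ℝ) ≤ (y : ℝ) ^ θ := by positivity
    nlinarith
  have hP'm : ∀ p ∈ P', p ∈ PP g p₀ y ∧ ¬ (p : ℤ) ∣ w e₀ := by
    intro p hp
    rw [hP', Finset.mem_filter] at hp
    exact hp
  -- the bad directions
  set Bad : (p : ℕ) → Finset (Fin s × Fin d → ZMod p) := fun p => if hp : p.Prime then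
    haveI : Fact p.Prime := ⟨hp⟩
    (univ : Finset (Fin s × Fin d → ZMod p)).filter
      (fun b => ∃ n, ev1 (top Dg (fun e => (w e : ZMod p)))
        (stt (fun i => (c i : ZMod p)) b n) = 0) else ∅ with hBad
  have hBadc : ∀ p ∈ P', 2 * (Bad p).card ≤ p ^ Fintype.card (Fin s × Fin d) := by
    intro p hp
    obtain ⟨hpP, hpw⟩ := hP'm p hp
    obtain ⟨hpp, hpy, hp0, hps⟩ := hPP p hpP
    obtain ⟨hkp, hseq⟩ := hsplit p hpp hp0 hps
    have : Fact p.Prime := ⟨hpp⟩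
    rw [hBad]
    simp only
    rw [dif_pos hpp]
    apply card_badDir p _ ((p - 1) / k) k (Nat.mul_div_cancel' hkp) hseq
    · rw [hcard, hk]; omega
    · intro h
      have h1 := congrFun h e₀
      unfold top at h1
      rw [if_pos hDg.symm, Pi.zero_apply, ZMod.intCast_zmod_eq_zero_iff_dvd] at h1
      exact hpw h1
  obtain ⟨dir, hdir1, hdir2⟩ := direction (ι := Fin s × Fin d) y
    (by rw [hcard]; exact Nat.mul_pos hs hd) P'
    (fun p hp => ⟨(hPP p (hP'm p hp).1).1.pos, (hPP p (hP'm p hp).1).2.1⟩) Bad hBadc (by omega)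
  set P : Finset ℕ := P'.filter (fun p => (fun i => (dir i : ZMod p)) ∉ Bad p) with hP
  have hPm : ∀ p ∈ P, p ∈ P' ∧ (fun i => (dir i : ZMod p)) ∉ Bad p := by
    intro p hp
    rw [hP, Finset.mem_filter] at hp
    exact hp
  have hPc : (y : ℝ) ^ θ ≤ (P.card : ℝ) := by
    have h1 : (P'.card : ℝ) ≤ 4 * (P.card : ℝ) := by exact_mod_cast hdir2
    have h7 : (0 : ℝ) ≤ (y : ℝ) ^ θ := by positivity
    linarith
  refine ⟨P, fun p hp => (hP'm p (hPm p hp).1).1, fun b => ?_⟩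
  -- lines
  set E : (Fin s × Fin d → ℤ) → Prop := fun a => ∀ p ∈ P, ∃ n, (p : ℤ) ∣ ev1 w (stt c a n)
    with hE
  have hline : ∀ v : Fin s × Fin d → ℤ, (((Icc (0 : ℤ) (2 * H)).filter (fun t : ℤ =>
      E (fun q => v q + t * dir q))).card : ℝ) ≤
      (H : ℝ) ^ (1 / 2 + 1 / (2 * A) + ε / 2) := by
    intro v
    set Q : ℕ → ℤ[X] := fun n => Lp w (stt c v n) (stt c dir n) with hQ
    have hmap : ∀ (p : ℕ) (n : ℕ), (Q n).map (Int.castRingHom (ZMod p)) =
        Lp (fun e => (w e : ZMod p)) (stt (fun i => (c i : ZMod p)) (fun q => (v q : ZMod p)) n)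
          (stt (fun i => (c i : ZMod p)) (fun q => (dir q : ZMod p)) n) := by
      intro p n
      rw [hQ]
      simp only
      rw [Lp_map]
      have h1 : ∀ x : Fin s × Fin d → ℤ, (fun q => (Int.castRingHom (ZMod p)) (stt c x n q)) =
          stt (fun i => (c i : ZMod p)) (fun q => (x q : ZMod p)) n := by
        intro x
        funext q
        exact stt_map (Int.castRingHom (ZMod p)) c x n q
      rw [h1, h1]
      rfl
    have h1 := hone H hHH1 P
      (fun p hp => ⟨(hPP p (hP'm p (hPm p hp).1).1).1, (hPP p (hP'm p (hPm p hp).1).1).2.1⟩)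
      hPc H (s * d * r) k (by omega) (by omega) (by
        intro p hp
        obtain ⟨hpp, hpy, hp0, hps⟩ := hPP p (hP'm p (hPm p hp).1).1
        exact (hsplit p hpp hp0 hps).1) Q (by
        intro n
        have := Lp_natDegree w (stt c v n) (stt c dir n)
        rwa [hcard] at this) (by
        intro p hp n
        obtain ⟨hpP', hpB⟩ := hPm p hp
        obtain ⟨hpP, hpw⟩ := hP'm p hpP'
        obtain ⟨hpp, hpy, hp0, hps⟩ := hPP p hpP
        obtain ⟨hkp, hseq⟩ := hsplit p hpp hp0 hps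
        have : Fact p.Prime := ⟨hpp⟩
        constructor
        · intro h0
          apply hpB
          rw [hBad]
          simp only
          rw [dif_pos hpp, Finset.mem_filter]
          refine ⟨mem_univ _, n, ?_⟩
          rw [hmap] at h0
          have h2 := congrArg (fun q => Polynomial.coeff q Dg) h0
          simp only [Polynomial.coeff_zero] at h2
          rw [Lp_coeff _ _ _ Dg (fun e he => hmax' e (fun h => he (by rw [h, Int.cast_zero])))]
            at h2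
          exact h2
        · rw [hmap, hmap]
          have h2 : ∀ x : Fin s × Fin d → ZMod p,
              stt (fun i => (c i : ZMod p)) x (n + (p - 1) / k) =
                stt (fun i => (c i : ZMod p)) x n := by
            intro x
            funext q
            unfold stt
            have := hseq (fun i => x (q.1, i)) (n + q.2)
            rwa [add_right_comm] at this
          rw [h2, h2])
    refine le_trans (le_of_eq ?_) h1
    congr 1
    have hI : Icc (0 : ℤ) (2 * H) = Icc ((H : ℤ) - H) (H + H) := by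
      congr 1 <;> ring
    rw [hI]
    congr 1
    ext t
    rw [Finset.mem_filter, Finset.mem_filter]
    have h2 : ∀ n, ev1 w (stt c (fun q => v q + t * dir q) n) = (Q n).eval t := by
      intro n
      rw [hQ]
      simp only
      rw [Lp_eval, stt_lin]
    rw [hE]
    simp only [h2]
  have h1 := lines H (4 * Fintype.card (Fin s × Fin d) * y)
    (by rw [hcard]; exact Nat.mul_pos hs hd) b dir hdir1
    E ((H : ℝ) ^ (1 / 2 + 1 / (2 * A) + ε / 2)) (by positivity) hline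
  refine le_trans (le_of_eq ?_) (h1.trans ?_)
  · congr 2
  rw [hcard]
  have hyY : (y : ℝ) ≤ Y := Nat.floor_le hY0
  have h2 := hpoly H hHH3
  have h3 : ((s * d : ℕ) : ℝ) * ((4 * (s * d) * y : ℕ) : ℝ) ≤ (H : ℝ) ^ (ε / 2) := by
    refine le_trans ?_ h2
    push_cast
    have h4 : (0 : ℝ) ≤ 4 * ((s : ℝ) * d) ^ 2 := by positivity
    calc (s : ℝ) * d * (4 * (s * d) * y) = 4 * ((s : ℝ) * d) ^ 2 * y := by ring
      _ ≤ 4 * ((s : ℝ) * d) ^ 2 * Y := mul_le_mul_of_nonneg_left hyY h4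
  have h5 : (0 : ℝ) ≤ (2 * (H : ℝ) + 1) ^ (s * d - 1) := by positivity
  calc ((s * d : ℕ) : ℝ) * ((4 * (s * d) * y : ℕ) : ℝ) * (2 * (H : ℝ) + 1) ^ (s * d - 1) *
        (H : ℝ) ^ (1 / 2 + 1 / (2 * A) + ε / 2)
      ≤ (H : ℝ) ^ (ε / 2) * (2 * (H : ℝ) + 1) ^ (s * d - 1) *
        (H : ℝ) ^ (1 / 2 + 1 / (2 * A) + ε / 2) := by
        apply mul_le_mul_of_nonneg_right _ (by positivity)
        exact mul_le_mul_of_nonneg_right h3 h5
    _ = (2 * (H : ℝ) + 1) ^ (s * d - 1) * ((H : ℝ) ^ (ε / 2) *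
        (H : ℝ) ^ (1 / 2 + 1 / (2 * A) + ε / 2)) := by ring
    _ = (2 * (H : ℝ) + 1) ^ (s * d - 1) * (H : ℝ) ^ (1 / 2 + 1 / (2 * A) + ε) := by
        rw [← Real.rpow_add (by linarith)]
        congr 2
        ring

end Pool.Agent.U307.SK
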